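import Pool.Agent.P.MP_7a8567_an.Stm

set_option autoImplicit false

namespace Ivrii
open MvPolynomial

section Conic
variable {k : Type} [Field k]

/-- exponent vector of `z^i w^j` -/
noncomputable def cnMono (i j : ℕ) : Fin 2 →₀ ℕ := Finsupp.single 0 i + Finsupp.single 1 j

lemma cnMono_zero (i j : ℕ) : cnMono i j 0 = i := by simp [cnMono]
lemma cnMono_one (i j : ℕ) : cnMono i j 1 = j := by simp [cnMono]

lemma cnMono_eq (m : Fin 2 →₀ ℕ) : m = cnMono (m 0) (m 1) := by
  ext i; fin_cases i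
  · simp [cnMono]
  · simp [cnMono]

lemma cnMono_inj {i j i' j' : ℕ} : cnMono i j = cnMono i' j' ↔ i = i' ∧ j = j' := by
  constructor
  · intro h
    have h0 := congrArg (fun m : Fin 2 →₀ ℕ => m 0) h
    have h1 := congrArg (fun m : Fin 2 →₀ ℕ => m 1) h
    simp only [cnMono_zero, cnMono_one] at h0 h1
    exact ⟨h0, h1⟩
  · rintro ⟨rfl, rfl⟩; rfl

lemma cnMono_mon (i j : ℕ) (a : k) :
    (monomial (cnMono i j) a : R2 k) = C a * X 0 ^ i * X 1 ^ j := by
  rw [cnMono, X_pow_eq_monomial, X_pow_eq_monomial, C_mul_monomial, monomial_mul]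
  simp

lemma Conic.poly_eq (q : Conic k) : q.poly = monomial (cnMono 2 0) q.a + monomial (cnMono 1 1) q.b
    + monomial (cnMono 0 2) q.c + monomial (cnMono 1 0) q.d + monomial (cnMono 0 1) q.e
    + monomial (cnMono 0 0) q.f := by
  simp only [cnMono_mon, Conic.poly]; ring

lemma Conic.coeff_poly (q : Conic k) (i j : ℕ) : coeff (cnMono i j) q.poly =
    (if 2 = i ∧ 0 = j then q.a else 0) + (if 1 = i ∧ 1 = j then q.b else 0)
    + (if 0 = i ∧ 2 = j then q.c else 0) + (if 1 = i ∧ 0 = j then q.d else 0)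
    + (if 0 = i ∧ 1 = j then q.e else 0) + (if 0 = i ∧ 0 = j then q.f else 0) := by
  classical
  simp only [Conic.poly_eq, coeff_add, coeff_monomial, cnMono_inj]

theorem Conic.poly_inj {q q' : Conic k} (h : q.poly = q'.poly) : q = q' := by
  have H : ∀ i j, coeff (cnMono i j) q.poly = coeff (cnMono i j) q'.poly := fun i j => by rw [h]
  have h1 := H 2 0
  have h2 := H 1 1
  have h3 := H 0 2
  have h4 := H 1 0
  have h5 := H 0 1
  have h6 := H 0 0
  simp only [Conic.coeff_poly] at h1 h2 h3 h4 h5 h6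
  simp at h1 h2 h3 h4 h5 h6
  exact Conic.ext h1 h2 h3 h4 h5 h6

lemma cnMono_deg (i j : ℕ) (a : k) : (monomial (cnMono i j) a : R2 k).totalDegree ≤ i + j := by
  refine (totalDegree_monomial_le _ _).trans ?_
  rw [cnMono, Finsupp.sum_add_index'] <;> simp

theorem Conic.totalDegree_le (q : Conic k) : q.poly.totalDegree ≤ 2 := by
  rw [Conic.poly_eq]
  refine (totalDegree_add _ _).trans (max_le ?_ ((cnMono_deg _ _ _).trans (by norm_num)))
  refine (totalDegree_add _ _).trans (max_le ?_ ((cnMono_deg _ _ _).trans (by norm_num)))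
  refine (totalDegree_add _ _).trans (max_le ?_ ((cnMono_deg _ _ _).trans (by norm_num)))
  refine (totalDegree_add _ _).trans (max_le ?_ ((cnMono_deg _ _ _).trans (by norm_num)))
  exact (totalDegree_add _ _).trans (max_le ((cnMono_deg _ _ _).trans (by norm_num))
    ((cnMono_deg _ _ _).trans (by norm_num)))

lemma Conic.totalDegree_le_one (q : Conic k) (ha : q.a = 0) (hb : q.b = 0) (hc : q.c = 0) :
    q.poly.totalDegree ≤ 1 := by
  rw [Conic.poly_eq, ha, hb, hc]
  simp only [monomial_zero, map_zero, zero_add]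
  refine (totalDegree_add _ _).trans (max_le ?_ ((cnMono_deg _ _ _).trans (by norm_num)))
  exact (totalDegree_add _ _).trans (max_le ((cnMono_deg _ _ _).trans (by norm_num))
    ((cnMono_deg _ _ _).trans (by norm_num)))

lemma exists_conic (Q : R2 k) (h : Q.totalDegree ≤ 2) : ∃ q : Conic k, q.poly = Q := by
  refine ⟨⟨coeff (cnMono 2 0) Q, coeff (cnMono 1 1) Q, coeff (cnMono 0 2) Q, coeff (cnMono 1 0) Q,
    coeff (cnMono 0 1) Q, coeff (cnMono 0 0) Q⟩, ?_⟩
  ext m
  rw [cnMono_eq m]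
  generalize m 0 = i
  generalize m 1 = j
  rw [Conic.coeff_poly]
  by_cases hij : i + j ≤ 2
  · have hi : i ≤ 2 := by omega
    have hj : j ≤ 2 := by omega
    interval_cases i <;> interval_cases j <;> first | omega | simp
  · have h0 : coeff (cnMono i j) Q = 0 := by
      apply coeff_eq_zero_of_totalDegree_lt
      have : ∑ x ∈ (cnMono i j).support, (cnMono i j) x = i + j := by
        have := Finsupp.sum_fintype (cnMono i j) (fun _ e => e) (fun _ => rfl)
        rw [Finsupp.sum] at this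
        rw [this, Fin.sum_univ_two, cnMono_zero, cnMono_one]
      omega
    rw [h0, if_neg (by omega), if_neg (by omega), if_neg (by omega), if_neg (by omega),
      if_neg (by omega), if_neg (by omega)]
    simp

lemma lin_not_unit (a b c : k) (h : a ≠ 0 ∨ b ≠ 0) :
    ¬ IsUnit (C a * X 0 + C b * X 1 + C c : R2 k) := by
  intro hu
  rcases h with h | h
  · have := hu.map (eval ![-c / a, 0])
    simp at this
    apply this; field_simp; ring
  · have := hu.map (eval ![0, -c / b])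
    simp at this
    apply this; field_simp; ring

lemma not_irr_of_eq (q : Conic k) (a1 b1 c1 a2 b2 c2 : k) (h1 : a1 ≠ 0 ∨ b1 ≠ 0)
    (h2 : a2 ≠ 0 ∨ b2 ≠ 0) (ea : q.a = a1 * a2) (eb : q.b = a1 * b2 + b1 * a2)
    (ec : q.c = b1 * b2) (ed : q.d = a1 * c2 + c1 * a2) (ee : q.e = b1 * c2 + c1 * b2)
    (ef : q.f = c1 * c2) : ¬ Irreducible q.poly := by
  intro hi
  have : q.poly = (C a1 * X 0 + C b1 * X 1 + C c1) * (C a2 * X 0 + C b2 * X 1 + C c2) := by
    rw [Conic.poly, ea, eb, ec, ed, ee, ef]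
    simp only [map_add, map_mul]; ring
  rcases hi.isUnit_or_isUnit this with h | h
  · exact lin_not_unit _ _ _ h1 h
  · exact lin_not_unit _ _ _ h2 h

lemma exists_sq_pair [IsAlgClosed k] (p r s : k) (h : s ^ 2 = p * r) :
    ∃ α β : k, α ^ 2 = p ∧ β ^ 2 = r ∧ α * β = s := by
  obtain ⟨α, hα⟩ := IsAlgClosed.exists_pow_nat_eq p (n := 2) (by norm_num)
  obtain ⟨β, hβ⟩ := IsAlgClosed.exists_pow_nat_eq r (n := 2) (by norm_num)
  have : (α * β - s) * (α * β + s) = 0 := by
    linear_combination β ^ 2 * hα + p * hβ - h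
  rcases mul_eq_zero.1 this with h' | h'
  · exact ⟨α, β, hα, hβ, by linear_combination h'⟩
  · exact ⟨α, -β, hα, by linear_combination hβ, by linear_combination -h'⟩

theorem conic_spec [IsAlgClosed k] [CharZero k] : CONIC k := by
  intro Q hi hd
  obtain ⟨q, rfl⟩ := exists_conic Q hd.le
  refine ⟨q, rfl, fun hΔ => ?_⟩
  rw [Conic.Δ] at hΔ
  by_cases ha : q.a = 0
  · by_cases hc : q.c = 0
    · have hb : q.b ≠ 0 := fun hb => by
        have := q.totalDegree_le_one ha hb hc
        omega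
      refine not_irr_of_eq q q.b 0 q.e 0 1 (q.d / q.b) (Or.inl hb) (Or.inr one_ne_zero)
        (by rw [ha]; ring) (by ring) (by rw [hc]; ring) (by field_simp; ring) (by ring) ?_ hi
      rw [ha, hc] at hΔ
      have : q.b * (q.f * q.b - q.e * q.d) = 0 := by linear_combination hΔ
      have := (mul_eq_zero.1 this).resolve_left hb
      field_simp
      linear_combination this
    · obtain ⟨α, β, h1, h2, h3⟩ := exists_sq_pair (q.b ^ 2 - 4 * q.a * q.c)
        (q.e ^ 2 - 4 * q.c * q.f) (q.b * q.e - 2 * q.c * q.d) (by linear_combination 4 * q.c * hΔ)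
      refine not_irr_of_eq q ((q.b - α) / 2) q.c ((q.e - β) / 2) ((q.b + α) / (2 * q.c)) 1
        ((q.e + β) / (2 * q.c)) (Or.inr hc) (Or.inr one_ne_zero) ?_ ?_ ?_ ?_ ?_ ?_ hi
      · field_simp; linear_combination h1
      · field_simp; ring
      · ring
      · field_simp; linear_combination 2 * h3
      · field_simp; ring
      · field_simp; linear_combination h2
  · obtain ⟨α, β, h1, h2, h3⟩ := exists_sq_pair (q.b ^ 2 - 4 * q.a * q.c)
      (q.d ^ 2 - 4 * q.a * q.f) (q.b * q.d - 2 * q.a * q.e) (by linear_combination 4 * q.a * hΔ)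
    refine not_irr_of_eq q q.a ((q.b - α) / 2) ((q.d - β) / 2) 1 ((q.b + α) / (2 * q.a))
      ((q.d + β) / (2 * q.a)) (Or.inl ha) (Or.inl one_ne_zero) ?_ ?_ ?_ ?_ ?_ ?_ hi
    · ring
    · field_simp; ring
    · field_simp; linear_combination h1
    · field_simp; ring
    · field_simp; linear_combination 2 * h3
    · field_simp; linear_combination h2

theorem QF.Same.rfl' (J : QF k) : J.Same J :=
  ⟨1, 0, one_ne_zero, by ext <;> simp⟩

theorem QF.Same.symm {J J' : QF k} (h : J.Same J') : J'.Same J := by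
  obtain ⟨u, v, hu, rfl⟩ := h
  refine ⟨u⁻¹, -(u⁻¹ * v), inv_ne_zero hu, ?_⟩
  ext <;> simp only <;> field_simp
  ring

theorem QF.Same.trans {J J' J'' : QF k} (h : J.Same J') (h' : J'.Same J'') : J.Same J'' := by
  obtain ⟨u, v, hu, rfl⟩ := h
  obtain ⟨u', v', hu', rfl⟩ := h'
  refine ⟨u' * u, u' * v + v', mul_ne_zero hu' hu, ?_⟩
  ext <;> simp only <;> ring

theorem QF.Same.vert {J J' : QF k} (h : J.Same J') {π : R2 k} (hv : J.Vert π) : J'.Vert π := by
  obtain ⟨u, v, hu, rfl⟩ := h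
  obtain ⟨c, hc⟩ := hv
  refine ⟨u * c + v, ?_⟩
  have : QF.lev ⟨u * J.c0, u * J.b1, u * J.b2, u * J.B, u * J.c1 + v, u * J.A⟩ (u * c + v)
      = C u * J.lev c := by
    simp only [QF.lev, map_add, map_mul, map_sub]; ring
  rw [this]
  exact Dvd.dvd.mul_left hc _

theorem exists_other [CharZero k] (τ : k →+* k) (J : QF k) :
    ∃ q' : Conic k, q'.Δ ≠ 0 ∧ RealC τ q'.poly ∧ ¬ J.Same q'.dQ := by
  by_contra hcon
  push Not at hcon
  have h1 := hcon ⟨0, 1, 0, 0, 0, -1⟩ (by simp [Conic.Δ])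
    ⟨1, one_ne_zero, by simp [Conic.poly]; ring⟩
  have h2 := hcon ⟨0, 1, 0, -1, -1, 0⟩ (by simp [Conic.Δ])
    ⟨1, one_ne_zero, by simp [Conic.poly]; ring⟩
  obtain ⟨u, v, -, h⟩ := h1.symm.trans h2
  have := congrArg QF.b1 h
  simp [Conic.dQ] at this

end Conic

end Ivrii
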