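import Pool.Agent.P.MP_7a8567_an.Stm

set_option autoImplicit false

/-! Generic lines: evaluation, the field of a line, squares and odd primes. -/

namespace Ivrii
open MvPolynomial

section Sq0
variable {k Ω : Type} [Field k] [Field Ω] [Algebra k Ω] {l : Ω × Ω}

theorem Gen.ev_inj (hl : Gen k l) : Function.Injective (ev l : R2 k → Ω) := hl

theorem Gen.ev_ne (hl : Gen k l) {n : R2 k} (hn : n ≠ 0) : ev l n ≠ 0 :=
  fun h => hn (hl.ev_inj (h.trans (map_zero _).symm))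

theorem ev_X0 (l : Ω × Ω) : ev l (X 0 : R2 k) = l.1 := by simp [ev]

theorem ev_X1 (l : Ω × Ω) : ev l (X 1 : R2 k) = l.2 := by simp [ev]

theorem Gen.t_ne (hl : Gen k l) : l.1 ≠ 0 := by
  rw [← ev_X0 (k := k) l]
  exact hl.ev_ne (X_ne_zero 0)

theorem Fd_eq_range (l : Ω × Ω) :
    Fd k l = IntermediateField.adjoin k (Set.range ![l.1, l.2]) := by
  rw [Fd, Matrix.range_cons, Matrix.range_cons, Matrix.range_empty, Set.union_empty]
  rfl

theorem ev_mem_Fd (l : Ω × Ω) (n : R2 k) : ev l n ∈ Fd k l := by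
  rw [Fd_eq_range, IntermediateField.mem_adjoin_range_iff]
  exact ⟨n, 1, by rw [map_one, div_one]; rfl⟩

theorem mem_Fd_iff {x : Ω} (hl : Gen k l) :
    x ∈ Fd k l ↔ ∃ a b : R2 k, b ≠ 0 ∧ x = ev l a / ev l b := by
  have _ := hl
  constructor
  · intro hx
    rw [Fd_eq_range, IntermediateField.mem_adjoin_range_iff] at hx
    obtain ⟨a, b, h⟩ := hx
    by_cases hb : b = 0
    · refine ⟨0, 1, one_ne_zero, ?_⟩
      rw [h, hb, map_zero, map_zero, div_zero, zero_div]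
    · exact ⟨a, b, hb, h⟩
  · rintro ⟨a, b, -, rfl⟩
    exact div_mem (ev_mem_Fd l a) (ev_mem_Fd l b)

theorem mult_mul {π n m : R2 k} (hπ : Irreducible π) (hn : n ≠ 0) (hm : m ≠ 0) :
    multiplicity π (n * m) = multiplicity π n + multiplicity π m :=
  multiplicity_mul hπ.prime (FiniteMultiplicity.of_prime_left hπ.prime (mul_ne_zero hn hm))

theorem sq0 (hl : Gen k l) {n : R2 k} (hn : n ≠ 0) (h : Sq (Fd k l) (ev l n)) (π : R2 k) :
    ¬ OddP n π := by
  rintro ⟨hπ, -, ho⟩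
  obtain ⟨r, hr, he⟩ := h
  obtain ⟨a, b, hb, rfl⟩ := (mem_Fd_iff hl).1 hr
  have hb' := hl.ev_ne hb
  have h1 : n * (b * b) = a * a := by
    apply hl.ev_inj
    simp only [map_mul]
    rw [he]
    field_simp
  have hbb : b * b ≠ 0 := mul_ne_zero hb hb
  have ha : a ≠ 0 := by
    rintro rfl
    exact mul_ne_zero hn hbb (h1.trans (mul_zero _))
  have h2 := congrArg (multiplicity π) h1
  rw [mult_mul hπ hn hbb, mult_mul hπ hb hb, mult_mul hπ ha ha] at h2
  obtain ⟨c, hc⟩ := ho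
  omega

theorem OddP.mul {n m π : R2 k} (hn : n ≠ 0) (h : OddP n π) (hm : ¬ π ∣ m) : OddP (n * m) π := by
  obtain ⟨hπ, h0, ho⟩ := h
  have hm0 : m ≠ 0 := fun h1 => hm (h1 ▸ dvd_zero π)
  refine ⟨hπ, h0, ?_⟩
  rw [mult_mul hπ hn hm0, multiplicity_eq_zero.2 hm, add_zero]
  exact ho

theorem OddP.dvd {n π : R2 k} (h : OddP n π) : π ∣ n := by
  by_contra h1
  have h2 := h.2.2
  rw [multiplicity_eq_zero.2 h1] at h2
  exact Nat.not_odd_zero h2

theorem not_oddP_one (π : R2 k) : ¬ OddP (1 : R2 k) π :=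
  fun h => h.1.not_isUnit (isUnit_of_dvd_one h.dvd)

end Sq0

end Ivrii
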