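import Pool.Agent.P.MP_7a8567_an.Stm

set_option autoImplicit false

/-!
The discriminant of a curve on lines: existence (`disc_spec`) and its square root (`rdisc`).
-/

namespace Ivrii
open MvPolynomial

section Disc
variable {k Ω : Type} [Field k] [Field Ω] [Algebra k Ω]

/-- the sign relating the resultant with the squared Vandermonde determinant -/
def dsg (n : ℕ) : ℤ := ∏ i : Fin n, ∏ _j ∈ Finset.Ioi i, (-1 : ℤ)

lemma dsg_sq (n : ℕ) : dsg n * dsg n = 1 := by
  unfold dsg
  rw [← Finset.prod_mul_distrib]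
  refine Finset.prod_eq_one fun i _ => ?_
  rw [← Finset.prod_mul_distrib]
  exact Finset.prod_eq_one fun j _ => by norm_num

lemma res_nodal {M : Type} [Field M] {n : ℕ} (x : Fin n → M) :
    Polynomial.resultant (∏ i, (Polynomial.X - Polynomial.C (x i)))
      (Polynomial.derivative (∏ i, (Polynomial.X - Polynomial.C (x i)))) n (n - 1) =
      (dsg n : M) * (Matrix.vandermonde x).det ^ 2 := by
  have hdeg : (∏ i, (Polynomial.X - Polynomial.C (x i))).natDegree = n := by
    rw [Polynomial.natDegree_prod_of_monic _ _ fun i _ => Polynomial.monic_X_sub_C _]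
    simp
  have hder : (Polynomial.derivative (∏ i, (Polynomial.X - Polynomial.C (x i)))).natDegree
      ≤ n - 1 := by
    have := Polynomial.natDegree_derivative_le (∏ i, (Polynomial.X - Polynomial.C (x i)))
    rwa [hdeg] at this
  have h1 := Polynomial.resultant_prod_left Finset.univ
    (fun i => Polynomial.X - Polynomial.C (x i))
    (Polynomial.derivative (∏ i, (Polynomial.X - Polynomial.C (x i)))) (n - 1) (by simp) hder
  rw [hdeg] at h1
  rw [h1]
  have h2 : ∀ i : Fin n, (Polynomial.X - Polynomial.C (x i)).resultant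
      (Polynomial.derivative (∏ i, (Polynomial.X - Polynomial.C (x i))))
      (Polynomial.X - Polynomial.C (x i)).natDegree (n - 1) = ∏ j ∈ ({i}ᶜ : Finset (Fin n)), (x i - x j) := by
    intro i
    rw [Polynomial.natDegree_X_sub_C, Polynomial.resultant_X_sub_C_left _ _ _ hder]
    have := Lagrange.eval_nodal_derivative_eval_node_eq (s := Finset.univ) (v := x)
      (Finset.mem_univ i)
    rw [Lagrange.nodal_eq] at this
    rw [this, Lagrange.eval_nodal, Finset.compl_singleton]
  rw [Finset.prod_congr rfl fun i _ => h2 i,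
    ← Finset.prod_prod_Ioi_mul_eq_prod_prod_off_diag (fun j i => x i - x j),
    Matrix.det_vandermonde, dsg]
  push_cast
  rw [← Finset.prod_pow, ← Finset.prod_mul_distrib]
  refine Finset.prod_congr rfl fun i _ => ?_
  rw [← Finset.prod_pow, ← Finset.prod_mul_distrib]
  refine Finset.prod_congr rfl fun j _ => ?_
  ring

lemma res_full {M : Type} [Field M] {n : ℕ} (hn : 1 ≤ n) (b : M) (x : Fin n → M)
    (p : Polynomial M) (hp : p = Polynomial.C b * ∏ i, (Polynomial.X - Polynomial.C (x i))) :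
    (dsg n : M) * p.coeff n * Polynomial.resultant p (Polynomial.derivative p) n (n - 1) =
      b ^ (2 * n) * (Matrix.vandermonde x).det ^ 2 := by
  have hdeg : (∏ i, (Polynomial.X - Polynomial.C (x i))).natDegree = n := by
    rw [Polynomial.natDegree_prod_of_monic _ _ fun i _ => Polynomial.monic_X_sub_C _]
    simp
  have hmon : (∏ i, (Polynomial.X - Polynomial.C (x i))).Monic :=
    Polynomial.monic_prod_of_monic _ _ fun i _ => Polynomial.monic_X_sub_C _
  have hc : p.coeff n = b := by
    rw [hp, Polynomial.coeff_C_mul]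
    have := hmon.coeff_natDegree
    rw [hdeg] at this
    rw [this, mul_one]
  have hs : (dsg n : M) * (dsg n : M) = 1 := by
    have := congrArg (Int.cast : ℤ → M) (dsg_sq n)
    push_cast at this
    exact this
  rw [hc, hp, Polynomial.derivative_C_mul, Polynomial.resultant_C_mul_left,
    Polynomial.resultant_C_mul_right, res_nodal]
  obtain ⟨m, rfl⟩ : ∃ m, n = m + 1 := ⟨n - 1, by omega⟩
  rw [Nat.add_sub_cancel]
  linear_combination (b ^ (2 * (m + 1)) * (Matrix.vandermonde x).det ^ 2) * hs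

/-- the restriction to a line with cleared denominators, over the polynomial ring -/
noncomputable def g0 (Q : R2 k) : Polynomial (R2 k) :=
  ∑ μ ∈ Q.support, Polynomial.C (C (coeff μ Q)) *
    (Polynomial.C (X 0) * (Polynomial.X + Polynomial.C (X 1 * C 2⁻¹))) ^ (μ 0) *
    (Polynomial.X - Polynomial.C (X 1 * C 2⁻¹)) ^ (μ 1) *
    Polynomial.C (X 0 ^ (Q.totalDegree - μ 1))

lemma g0_map (Q : R2 k) (l : Ω × Ω) (ht : l.1 ≠ 0) :
    (g0 Q).map (ev l : R2 k →ₐ[k] Ω).toRingHom =
      Polynomial.C (l.1 ^ Q.totalDegree) * fl Q l := by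
  have h0 : (ev l : R2 k →ₐ[k] Ω).toRingHom (X 0) = l.1 := by simp [ev]
  have h1 : (ev l : R2 k →ₐ[k] Ω).toRingHom (X 1 * C 2⁻¹) = l.2 / 2 := by
    simp [ev, map_ofNat, div_eq_mul_inv]
  have h2 : ∀ c : k, (ev l : R2 k →ₐ[k] Ω).toRingHom (C c) = algebraMap k Ω c := by
    intro c; simp [ev]
  rw [fl, aeval_def, eval₂_eq', Finset.mul_sum, g0, Polynomial.map_sum]
  refine Finset.sum_congr rfl fun μ hμ => ?_
  have hle : μ 1 ≤ Q.totalDegree :=
    (monomial_le_degreeOf 1 hμ).trans (degreeOf_le_totalDegree Q 1)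
  simp only [Polynomial.map_mul, Polynomial.map_pow, Polynomial.map_C, Polynomial.map_add,
    Polynomial.map_sub, Polynomial.map_X, map_pow, h0, h1, h2, Fin.prod_univ_two,
    Matrix.cons_val_zero, Matrix.cons_val_one, Polynomial.algebraMap_apply]
  obtain ⟨m, hm⟩ := Nat.exists_eq_add_of_le hle
  rw [hm, Nat.add_sub_cancel_left, mul_pow, mul_pow]
  have h3 : Polynomial.C l.1 ^ (μ 1) * Polynomial.C l.1⁻¹ ^ (μ 1) = 1 := by
    rw [← mul_pow, ← Polynomial.C_mul, mul_inv_cancel₀ ht, Polynomial.C_1, one_pow]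
  rw [pow_add]
  linear_combination (-(Polynomial.C (algebraMap k Ω (coeff μ Q)) *
    (Polynomial.C l.1 ^ (μ 0) * (Polynomial.X + Polynomial.C (l.2 / 2)) ^ (μ 0)) *
    (Polynomial.X - Polynomial.C (l.2 / 2)) ^ (μ 1) * Polynomial.C l.1 ^ m)) * h3

theorem disc_spec [CharZero k] : DISC k := by
  intro Q h1
  have hex : ∃ d, IsDisc Q d := by
    refine ⟨(dsg Q.totalDegree : R2 k) * (g0 Q).coeff Q.totalDegree *
      Polynomial.resultant (g0 Q) (Polynomial.derivative (g0 Q)) Q.totalDegree
        (Q.totalDegree - 1), ?_⟩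
    intro M _ _ l a x ht hf
    have hg := g0_map Q l ht
    rw [hf, ← mul_assoc, ← Polynomial.C_mul] at hg
    rw [← res_full h1 _ x _ hg, Polynomial.derivative_map, Polynomial.resultant_map_map,
      Polynomial.coeff_map, map_mul, map_mul, map_intCast]
    rfl
  rw [disc, dif_pos hex]
  exact hex.choose_spec

lemma fl_map_fix (Q : R2 k) (l : Ω × Ω) (σ : Ω ≃ₐ[k] Ω) (h1 : σ l.1 = l.1) (h2 : σ l.2 = l.2) :
    (fl Q l).map (σ : Ω →+* Ω) = fl Q l := by
  have h : (Polynomial.mapAlgHom (σ : Ω →ₐ[k] Ω)).comp (aeval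
      ![Polynomial.C l.1 * (Polynomial.X + Polynomial.C (l.2 / 2)),
        (Polynomial.X - Polynomial.C (l.2 / 2)) * Polynomial.C l.1⁻¹]) =
      (aeval ![Polynomial.C l.1 * (Polynomial.X + Polynomial.C (l.2 / 2)),
        (Polynomial.X - Polynomial.C (l.2 / 2)) * Polynomial.C l.1⁻¹] :
        R2 k →ₐ[k] Polynomial Ω) := by
    refine MvPolynomial.algHom_ext fun i => ?_
    fin_cases i <;> simp [h1, h2, map_ofNat]
  exact congrArg (fun φ : R2 k →ₐ[k] Polynomial Ω => φ Q) h

theorem rdisc [CharZero k] [IsAlgClosed Ω] (Q : R2 k) (l : Ω × Ω) (h1 : 1 ≤ Q.totalDegree)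
    (ht : l.1 ≠ 0) (hd : (fl Q l).natDegree = Q.totalDegree)
    (hc : (Rts Q l).card = Q.totalDegree) :
    ∃ r : Ω, r ≠ 0 ∧ r ^ 2 = ev l (disc Q) ∧
      ∀ σ ∈ G (Fd k l), σ r = ((sg σ (Rts Q l) : ℤ) : Ω) * r := by
  classical
  have hf0 : fl Q l ≠ 0 := by
    intro h
    rw [h, Polynomial.natDegree_zero] at hd
    omega
  have hsp : (fl Q l).Splits := IsAlgClosed.splits _
  have hcard : (fl Q l).roots.card = Q.totalDegree := by
    rw [← hd]; exact hsp.natDegree_eq_card_roots.symm
  have hval : (Rts Q l).val = (fl Q l).roots := by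
    refine Multiset.eq_of_le_of_card_le ?_ ?_
    · rw [Rts, Multiset.toFinset_val]
      convert Multiset.dedup_le _
    · rw [hcard]
      exact hc.ge
  have hmem : ∀ y, y ∈ Rts Q l ↔ y ∈ (fl Q l).roots := by
    intro y
    rw [← hval]; rfl
  let e : Rts Q l ≃ Fin Q.totalDegree := Finset.equivFinOfCardEq hc
  let x : Fin Q.totalDegree → Ω := fun i => (e.symm i : Ω)
  have hx : Function.Injective x := fun i j h => e.symm.injective (Subtype.ext h)
  have hprod : fl Q l = Polynomial.C (fl Q l).leadingCoeff *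
      ∏ i, (Polynomial.X - Polynomial.C (x i)) := by
    have h := hsp.eq_prod_roots
    have h' : ∏ i, (Polynomial.X - Polynomial.C (x i)) =
        ((fl Q l).roots.map fun a => Polynomial.X - Polynomial.C a).prod := by
      rw [← hval]
      have := Equiv.prod_comp e.symm fun y : Rts Q l => Polynomial.X - Polynomial.C (y : Ω)
      rw [this, Finset.prod_coe_sort (Rts Q l) fun y => Polynomial.X - Polynomial.C y]
      rfl
    rw [h']
    exact h
  refine ⟨(l.1 ^ Q.totalDegree * (fl Q l).leadingCoeff) ^ Q.totalDegree *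
    (Matrix.vandermonde x).det, ?_, ?_, ?_⟩
  · exact mul_ne_zero (pow_ne_zero _ (mul_ne_zero (pow_ne_zero _ ht)
      (Polynomial.leadingCoeff_ne_zero.mpr hf0))) (Matrix.det_vandermonde_ne_zero_iff.mpr hx)
  · rw [disc_spec Q h1 Ω l _ x ht hprod]
    ring
  · intro σ hσ
    have s1 : σ l.1 = l.1 :=
      mem_G.mp hσ _ (IntermediateField.subset_adjoin k _ (by simp))
    have s2 : σ l.2 = l.2 :=
      mem_G.mp hσ _ (IntermediateField.subset_adjoin k _ (by simp))
    have hm := fl_map_fix Q l σ s1 s2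
    have sa : σ (fl Q l).leadingCoeff = (fl Q l).leadingCoeff := by
      have := Polynomial.leadingCoeff_map (p := fl Q l) (σ : Ω →+* Ω)
      rw [hm] at this
      exact this.symm
    have hst : ∀ y, σ.toEquiv y ∈ Rts Q l ↔ y ∈ Rts Q l := by
      intro y
      rw [hmem, hmem, Polynomial.mem_roots hf0, Polynomial.mem_roots hf0]
      have h := Polynomial.isRoot_map_iff (f := (σ : Ω →+* Ω)) (x := y) (p := fl Q l)
        σ.injective
      rw [hm] at h
      exact h
    have hpm : ∀ y : Rts Q l, ((pm σ (Rts Q l) y : Rts Q l) : Ω) = σ y := by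
      intro y
      rw [pm, dif_pos hst]
      rfl
    have hv : (σ : Ω →+* Ω).mapMatrix (Matrix.vandermonde x) =
        (Matrix.vandermonde x).submatrix (e.permCongr (pm σ (Rts Q l))) id := by
      ext i j
      simp [Matrix.vandermonde_apply, x, hpm]
    have hdet : σ (Matrix.vandermonde x).det =
        ((sg σ (Rts Q l) : ℤ) : Ω) * (Matrix.vandermonde x).det := by
      have h := RingHom.map_det (σ : Ω →+* Ω) (Matrix.vandermonde x)
      rw [hv, Matrix.det_permute, Equiv.Perm.sign_permCongr] at h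
      have h' : sg σ (Rts Q l) = Equiv.Perm.sign (pm σ (Rts Q l)) := by
        rw [sg]
      rw [h']
      exact h
    rw [map_mul, hdet, map_pow, map_mul, map_pow, s1, sa]
    ring

end Disc

end Ivrii
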