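import Pool.Agent.P.MP_7a8567_an.Stm

set_option autoImplicit false

/-! Normal subgroups and sign characters of finite symmetric groups. -/

namespace Ivrii

section Grp
open Equiv
variable {α β γ H : Type} [Fintype α] [DecidableEq α] [Fintype β] [DecidableEq β] [Group H]

omit [Fintype α] in
theorem grp_comm (N : Subgroup (Perm α)) [hN : N.Normal] {h : Perm α} (hh : h ∈ N) (a b : α) :
    swap (h a) (h b) * swap a b ∈ N := by
  have h1 := N.mul_mem hh (hN.conj_mem _ (N.inv_mem hh) (swap a b))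
  rw [swap_apply_apply]
  rw [swap_inv] at h1
  simpa only [mul_assoc] using h1

theorem grp_fix (N : Subgroup (Perm α)) [N.Normal] {h : Perm α} (hh : h ∈ N) {a c : α}
    (ha : h a ≠ a) (hc : h c = c) : ∃ t ∈ N, Perm.IsThreeCycle t := by
  have hca : c ≠ a := fun e => ha (e ▸ hc)
  have hch : c ≠ h a := fun e => hca (h.injective (hc.trans e))
  refine ⟨_, grp_comm N hh c a, ?_⟩
  rw [hc]
  exact Perm.isThreeCycle_swap_mul_swap_same hch hca ha

theorem grp_three (N : Subgroup (Perm α)) [N.Normal] (g : Perm α) (hg : g ∈ N)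
    (ho : Perm.sign g = -1) (h3 : 3 ≤ Fintype.card α) : ∃ t ∈ N, Perm.IsThreeCycle t := by
  have h1 : g ≠ 1 := by
    rintro rfl
    simp at ho
  obtain ⟨a, ha⟩ : ∃ a, g a ≠ a := by
    by_contra hn
    exact h1 (Equiv.ext fun x => not_not.1 fun hx => hn ⟨x, hx⟩)
  by_cases hf : ∃ c, g c = c
  · obtain ⟨c, hc⟩ := hf
    exact grp_fix N hg ha hc
  have hf' : ∀ c, g c ≠ c := fun c hc => hf ⟨c, hc⟩
  by_cases h2 : ∃ x, g (g x) ≠ x
  · obtain ⟨x, hx⟩ := h2
    refine ⟨_, grp_comm N hg (g x) x, ?_⟩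
    have h4 := (Perm.isThreeCycle_swap_mul_swap_same (a := g x) (b := g (g x)) (c := x)
      (hf' _).symm (hf' _) hx)
    rwa [swap_comm (g (g x))]
  have h2' : ∀ x, g (g x) = x := fun x => not_not.1 fun hx => h2 ⟨x, hx⟩
  obtain ⟨c, hc⟩ : ∃ c, c ∉ ({a, g a} : Finset α) := by
    by_contra hn
    have : (Finset.univ : Finset α) ⊆ {a, g a} := fun x _ => not_not.1 fun hx => hn ⟨x, hx⟩
    have h5 := (Finset.card_le_card this).trans Finset.card_le_two
    rw [Finset.card_univ] at h5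
    omega
  simp only [Finset.mem_insert, Finset.mem_singleton, not_or] at hc
  obtain ⟨hca, hcg⟩ := hc
  have hga : g c ≠ a := fun e => hcg (by rw [← e, h2'])
  have hgg : g c ≠ g a := fun e => hca (g.injective e)
  by_cases he : ∃ e, e ≠ a ∧ e ≠ c ∧ e ≠ g a ∧ e ≠ g c
  · obtain ⟨e, e1, e2, e3, e4⟩ := he
    refine grp_fix N (grp_comm N hg a c) (a := a) (c := e) ?_ ?_
    · rw [Perm.mul_apply, swap_apply_left, swap_apply_of_ne_of_ne hcg (hf' c).symm]
      exact hca
    · rw [Perm.mul_apply, swap_apply_of_ne_of_ne e1 e2, swap_apply_of_ne_of_ne e3 e4]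
  · exfalso
    have h6 : g = swap a (g a) * swap c (g c) := by
      ext x
      rw [Perm.mul_apply]
      by_cases x1 : x = a
      · rw [x1, swap_apply_of_ne_of_ne (Ne.symm hca) hga.symm, swap_apply_left]
      by_cases x2 : x = c
      · rw [x2, swap_apply_left, swap_apply_of_ne_of_ne hga hgg]
      by_cases x3 : x = g a
      · rw [x3, swap_apply_of_ne_of_ne (Ne.symm hcg) hgg.symm, swap_apply_right, h2']
      by_cases x4 : x = g c
      · rw [x4, swap_apply_right, swap_apply_of_ne_of_ne hca hcg, h2']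
      exact absurd ⟨x, x1, x2, x3, x4⟩ he
    rw [h6, Perm.sign_mul, Perm.sign_swap ha.symm, Perm.sign_swap (hf' c).symm] at ho
    simp at ho

theorem top_of_three (N : Subgroup (Perm α)) (h3 : ∀ c : Perm α, c.IsThreeCycle → c ∈ N)
    (g : Perm α) (hg : g ∈ N) (ho : Perm.sign g = -1) : N = ⊤ := by
  have hA : alternatingGroup α ≤ N := by
    rw [← Perm.closure_three_cycles_eq_alternating, Subgroup.closure_le]
    exact h3
  rw [eq_top_iff]
  intro x _
  rcases Int.units_eq_one_or (Perm.sign x) with h | h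
  · exact hA (Perm.mem_alternatingGroup.2 h)
  · have h1 : x * g⁻¹ ∈ N := hA (Perm.mem_alternatingGroup.2 (by simp [h, ho]))
    simpa using N.mul_mem h1 hg

theorem g1 (N : Subgroup (Perm α)) [N.Normal] (g : Perm α) (hg : g ∈ N)
    (ho : Perm.sign g = -1) (h3 : 3 ≤ Fintype.card α) : N = ⊤ := by
  obtain ⟨t, ht, ht3⟩ := grp_three N g hg ho h3
  refine top_of_three N (fun c hc => ?_) g hg ho
  obtain ⟨u, hu⟩ := isConj_iff.1 (Perm.isConj_iff_cycleType_eq.2 (ht3.cycleType.trans hc.symm))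
  rw [← hu]
  exact Subgroup.Normal.conj_mem inferInstance t ht u

theorem g2 (χ : Perm α →* ℤˣ) : χ = 1 ∨ χ = Perm.sign := by
  by_cases h : ∃ g, χ g = -1
  · right
    refine Perm.eq_sign_of_surjective_hom fun u => ?_
    rcases Int.units_eq_one_or u with rfl | rfl
    · exact ⟨1, map_one χ⟩
    · exact h
  · left
    refine MonoidHom.ext fun g => ?_
    exact (Int.units_eq_one_or (χ g)).resolve_right fun hg => h ⟨g, hg⟩

theorem g2' (p : H →* Perm α) (hp : Function.Surjective p) (χ : H →* ℤˣ)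
    (hk : ∀ g, p g = 1 → χ g = 1) : (∀ g, χ g = 1) ∨ ∀ g, χ g = Perm.sign (p g) := by
  have h1 : ∀ g, p.liftOfSurjective hp ⟨χ, hk⟩ (p g) = χ g := fun g =>
    p.liftOfRightInverse_comp_apply _ _ ⟨χ, hk⟩ g
  rcases g2 (p.liftOfSurjective hp ⟨χ, hk⟩) with h | h
  · exact Or.inl fun g => by rw [← h1, h, MonoidHom.one_apply]
  · exact Or.inr fun g => by rw [← h1, h]

theorem gl [Group γ] (ρ : H →* γ) (top : H →* Perm α) (p : H →* Perm β)
    (htop : Function.Surjective top) (hp : Function.Surjective p) (h3 : 3 ≤ Fintype.card α)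
    (e : ℕ) (h2 : ∀ g, top g = 1 → ρ g ^ 2 ^ e = 1)
    (hs : ∃ g, Perm.sign (top g) ≠ Perm.sign (p g)) (g : H) (hg : ρ g ^ 3 = 1) :
    ∃ g', p g' = 1 ∧ ρ g' = ρ g := by
  have hN : (p.ker.map top).Normal := Subgroup.Normal.map inferInstance top htop
  have hT : p.ker.map top = ⊤ := by
    by_cases ho : ∃ k, p k = 1 ∧ Perm.sign (top k) = -1
    · obtain ⟨k, hk, hk'⟩ := ho
      exact g1 _ (top k) ⟨k, hk, rfl⟩ hk' h3
    · exfalso
      have : Nontrivial α := Fintype.one_lt_card_iff_nontrivial.1 (by omega)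
      rcases g2' p hp (Perm.sign.comp top) (fun k hk =>
        (Int.units_eq_one_or _).resolve_right fun h => ho ⟨k, hk, h⟩) with h | h
      · obtain ⟨s, hs1⟩ := Perm.sign_surjective α (-1)
        obtain ⟨k, rfl⟩ := htop s
        have h4 : Perm.sign (top k) = 1 := h k
        rw [hs1] at h4
        simp at h4
      · obtain ⟨k, hk⟩ := hs
        exact hk (h k)
  obtain ⟨a, ha, hag⟩ : top g ∈ p.ker.map top := hT ▸ Subgroup.mem_top _
  have hb : ρ (a⁻¹ * g) ^ 2 ^ e = 1 := h2 _ (by rw [map_mul, map_inv, hag, inv_mul_cancel])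
  let M : Subgroup H := p.ker ⊔ ρ.ker
  let q : H →* H ⧸ M := QuotientGroup.mk' M
  have hq : ∀ x, q x = 1 ↔ x ∈ M := fun x => QuotientGroup.eq_one_iff x
  have hqa : q a = 1 := (hq a).2 (Subgroup.mem_sup_left ha)
  have h5 : q g ^ 3 = 1 := by
    rw [← map_pow, hq]
    exact Subgroup.mem_sup_right (by rw [MonoidHom.mem_ker, map_pow, hg])
  have h6 : q g ^ 2 ^ e = 1 := by
    have : q g = q (a⁻¹ * g) := by rw [map_mul, map_inv, hqa, inv_one, one_mul]
    rw [this, ← map_pow, hq]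
    exact Subgroup.mem_sup_right (by rw [MonoidHom.mem_ker, map_pow, hb])
  have h7 : g ∈ M := (hq g).1 ((pow_eq_one_iff_of_coprime
    (Nat.Coprime.pow_right e (by norm_num : Nat.Coprime 3 2))).1 ⟨h5, h6⟩)
  have h8 : g ∈ (p.ker.map ρ).comap ρ := by
    rw [Subgroup.comap_map_eq]
    exact h7
  obtain ⟨g', hg', hg''⟩ := h8
  exact ⟨g', hg', hg''⟩

end Grp

end Ivrii
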