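import Pool.Agent.P.MP_7a8567_an.Alg.Bas
import Pool.Agent.P.MP_7a8567_an.Alg.Sq0
import Pool.Agent.P.MP_7a8567_an.Alg.Conic
import Pool.Agent.P.MP_7a8567_an.Alg.Disc
import Pool.Agent.P.MP_7a8567_an.Alg.Grp

set_option autoImplicit false

/-! Chains: sub-chains, reversal, the statements of the induction (paper, section 7). -/

namespace Ivrii

open MvPolynomial IntermediateField

variable {k Ω : Type} [Field k] [Field Ω] [Algebra k Ω] {τ : k →+* k}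

namespace Chain
variable (ch : Chain τ Ω)

lemma gen (j : ℕ) (hj : j ≤ ch.N) : Gen k (ch.l j) := by
  cases j with
  | zero => exact ch.gen0
  | succ j => exact (ch.lk j hj).gen'

/-- the sub-chain from line `a` to line `a + n` -/
def sub (a n : ℕ) (h : a + n ≤ ch.N) : Chain τ Ω where
  N := n
  l i := ch.l (a + i)
  A i := ch.A (a + i)
  Q i := ch.Q (a + i)
  gen0 := ch.gen a (by omega)
  mir j h1 h2 := ch.mir (a + j) (by omega) (by omega)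
  lk j hj := ch.lk (a + j) (by omega)
  ne j h1 hj := ch.ne (a + j) (by omega) (by omega)
  nrm i j _ _ _ _ := ch.nrm (a + i) (a + j) (by omega) (by omega) (by omega) (by omega)
  sgn i j hi hj := ch.sgn (a + i) (a + j) (by omega) (by omega)

/-- the reversed chain -/
def rev : Chain τ Ω where
  N := ch.N
  l i := ch.l (ch.N - i)
  A i := ch.A (ch.N + 1 - i)
  Q i := ch.Q (ch.N + 1 - i)
  gen0 := ch.gen _ (by omega)
  mir j h1 h2 := ch.mir _ (by omega) (by omega)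
  lk j hj := by
    have := (ch.lk (ch.N - (j + 1)) (by omega)).symm
    rwa [show ch.N - (j + 1) + 1 = ch.N - j by omega, show ch.N - j = ch.N + 1 - (j + 1) by omega,
      show ch.l (ch.N + 1 - (j + 1)) = ch.l (ch.N - j) by congr 1; omega] at this
  ne j h1 hj := by
    have := (ch.ne (ch.N - j) (by omega) (by omega)).symm
    rwa [show ch.N - j + 1 = ch.N + 1 - j by omega,
      show ch.A (ch.N - j) = ch.A (ch.N + 1 - (j + 1)) by congr 1; omega] at this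
  nrm i j _ _ _ _ := ch.nrm _ _ (by omega) (by omega) (by omega) (by omega)
  sgn i j hi hj := by
    obtain ⟨i', hi'⟩ : ∃ i', ch.N = i' + i + 1 := ⟨ch.N - i - 1, by omega⟩
    obtain ⟨j', hj'⟩ : ∃ j', ch.N = j' + j + 1 := ⟨ch.N - j - 1, by omega⟩
    rw [show ch.N + 1 - (i + 1) = i' + 1 by omega, show ch.N + 1 - (j + 1) = j' + 1 by omega,
      show ch.N - i = i' + 1 by omega, show ch.N - j = j' + 1 by omega,
      (ch.lk i' (by omega)).yv_neg, (ch.lk j' (by omega)).yv_neg, ← neg_add, neg_ne_zero]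
    exact ch.sgn i' j' (by omega) (by omega)

lemma M_le {a b : ℕ} {X : IntermediateField k Ω} :
    ch.M a b ≤ X ↔ ∀ i, a ≤ i → i ≤ b → Fd k (ch.l i) ≤ X := by
  simp [M, iSup_le_iff]

lemma Fd_le_M {a b i : ℕ} (h1 : a ≤ i) (h2 : i ≤ b) : Fd k (ch.l i) ≤ ch.M a b :=
  ch.M_le.1 le_rfl i h1 h2

lemma M_mono {a b a' b' : ℕ} (h1 : a' ≤ a) (h2 : b ≤ b') : ch.M a b ≤ ch.M a' b' :=
  ch.M_le.2 fun _ h3 h4 => ch.Fd_le_M (h1.trans h3) (h4.trans h2)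

lemma mem_G_M {a b : ℕ} {σ : Ω ≃ₐ[k] Ω} :
    σ ∈ G (ch.M a b) ↔ ∀ i, a ≤ i → i ≤ b → σ ∈ G (Fd k (ch.l i)) := by
  simp only [mem_G_le, M_le]

lemma M_self (a : ℕ) : ch.M a a = Fd k (ch.l a) :=
  le_antisymm (ch.M_le.2 fun _ h1 h2 => by rw [le_antisymm h2 h1]) (ch.Fd_le_M le_rfl le_rfl)

lemma M_sup {a b c : ℕ} (h1 : a ≤ b) (h2 : b ≤ c) : ch.M b c ⊔ ch.M a b = ch.M a c :=
  le_antisymm (sup_le (ch.M_mono h1 le_rfl) (ch.M_mono le_rfl h2)) (ch.M_le.2 fun i h3 h4 => by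
    rcases le_total i b with h | h
    · exact (ch.Fd_le_M h3 h).trans le_sup_right
    · exact (ch.Fd_le_M h h4).trans le_sup_left)

lemma sub_M (a n : ℕ) (h : a + n ≤ ch.N) (i j : ℕ) :
    (ch.sub a n h).M i j = ch.M (a + i) (a + j) :=
  le_antisymm ((ch.sub a n h).M_le.2 fun r h1 h2 => ch.Fd_le_M (i := a + r) (by omega) (by omega))
    (ch.M_le.2 fun r h1 h2 => by
      have := (ch.sub a n h).Fd_le_M (a := i) (b := j) (i := r - a) (by omega) (by omega)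
      rwa [show (ch.sub a n h).l (r - a) = ch.l r from congrArg ch.l (by omega)] at this)

lemma rev_M (i j : ℕ) (hi : i ≤ j) (hj : j ≤ ch.N) :
    ch.rev.M i j = ch.M (ch.N - j) (ch.N - i) :=
  le_antisymm (ch.rev.M_le.2 fun r h1 h2 => ch.Fd_le_M (i := ch.N - r) (by omega) (by omega))
    (ch.M_le.2 fun r h1 h2 => by
      have := ch.rev.Fd_le_M (a := i) (b := j) (i := ch.N - r) (by omega) (by omega)
      rwa [show ch.rev.l (ch.N - r) = ch.l r from congrArg ch.l (by omega)]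
        at this)

/-- position of `A 1` on `l 1` -/
def x1 : Ω := pos (ch.l 1) (ch.A 1)

/-- position of `A 2` on `l 1` -/
def x2 : Ω := pos (ch.l 1) (ch.A 2)

/-- the first two links are on the same mirror -/
def Two : Prop := 2 ≤ ch.N ∧ ch.Q 2 = ch.Q 1

def TypeN : Prop :=
  1 ≤ ch.N ∧ 3 ≤ (ch.Q 1).totalDegree ∧ ¬ ((ch.Q 1).totalDegree = 3 ∧ ch.Two)

open Classical in
/-- the roots on `l 1` other than the position of `A 2` -/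
noncomputable def Rem : Finset Ω := (Rts (ch.Q 1) (ch.l 1)).filter fun x => ¬ (ch.Two ∧ x = ch.x2)

/-- `F 1`, with the position of `A 2` if it is on the first mirror -/
noncomputable def B0 : IntermediateField k Ω :=
  Fd k (ch.l 1) ⊔ adjoin k {x | ch.Two ∧ x = ch.x2}

/-- no odd primes, except vertical ones when the first mirror is a conic -/
def Triv (n : R2 k) : Prop :=
  ∀ π, OddP n π → 1 ≤ ch.N ∧ ∃ q : Conic k, q.poly = ch.Q 1 ∧ q.Δ ≠ 0 ∧ q.dQ.Vert π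

def ODD : Prop := ch.TypeN → ∀ Y, TwoSet ch.B0 ch.Rem Y → Odd3 ch.B0 (ch.M 1 ch.N) Y

def PN : Prop := ch.TypeN → Full (ch.M 1 ch.N) ch.Rem

def SS : Prop := ch.TypeN → ∀ n : R2 k, n ≠ 0 → ∀ m ∈ ch.M 1 ch.N, m ≠ 0 →
  Sq (ch.M 0 ch.N) (ev (ch.l 0) n * m) → (∀ π, ¬ OddP n π) ∨
    (ch.Two ∧ Sq (ch.M 0 2) (ev (ch.l 0) n * ev (ch.l 2) n * ev (ch.l 1) (disc (ch.Q 1))))

def RR : Prop := ∀ n : R2 k, n ≠ 0 → ∀ m ∈ Fd k (ch.l ch.N), m ≠ 0 → (ch.N = 0 → m = 1) →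
  Sq (ch.M 0 ch.N) (ev (ch.l 0) n * m) → ch.Triv n

/-- all statements of the induction -/
structure Good : Prop where
  odd : ch.ODD
  pn : ch.PN
  ss : ch.SS
  rr : ch.RR

/-- the induction hypothesis -/
def IH : Prop := ∀ ch' : Chain τ Ω, ch'.N < ch.N → ch'.Good

lemma mem_Rem {x : Ω} : x ∈ ch.Rem ↔ x ∈ Rts (ch.Q 1) (ch.l 1) ∧ ¬ (ch.Two ∧ x = ch.x2) := by
  simp only [Rem, Finset.mem_filter]

lemma Rem_sub : ch.Rem ⊆ Rts (ch.Q 1) (ch.l 1) := fun _ h => (ch.mem_Rem.1 h).1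

lemma mem_G_B0 {σ : Ω ≃ₐ[k] Ω} :
    σ ∈ G ch.B0 ↔ σ ∈ G (Fd k (ch.l 1)) ∧ (ch.Two → σ ch.x2 = ch.x2) := by
  simp [B0, mem_G_sup, mem_G_adjoin]

lemma Rem_stab {σ : Ω ≃ₐ[k] Ω} (h : σ ∈ G ch.B0) : ∀ x ∈ ch.Rem, σ x ∈ ch.Rem := fun x hx => by
  obtain ⟨h1, h2⟩ := ch.mem_G_B0.1 h
  obtain ⟨h3, h4⟩ := ch.mem_Rem.1 hx
  exact ch.mem_Rem.2 ⟨Rts_stab h1 x h3, fun ⟨h5, h6⟩ =>
    h4 ⟨h5, σ.injective (by rw [h6, h2 h5])⟩⟩

lemma fix_of_not_Rem {σ : Ω ≃ₐ[k] Ω} (h : σ ∈ G ch.B0) :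
    ∀ x ∈ Rts (ch.Q 1) (ch.l 1), x ∉ ch.Rem → σ x = x := fun x hx hn => by
  have : ch.Two ∧ x = ch.x2 := by_contra fun h' => hn (ch.mem_Rem.2 ⟨hx, h'⟩)
  rw [this.2, (ch.mem_G_B0.1 h).2 this.1]

lemma sg_Rem {σ : Ω ≃ₐ[k] Ω} (h : σ ∈ G ch.B0) :
    sg σ ch.Rem = sg σ (Rts (ch.Q 1) (ch.l 1)) :=
  sg_filter (Rts_stab (ch.mem_G_B0.1 h).1) ch.Rem_sub (ch.fix_of_not_Rem h)

lemma Q_ne (j : ℕ) (h1 : 1 ≤ j) (h2 : j ≤ ch.N) : ch.Q j ≠ 0 := (ch.mir j h1 h2).irr.ne_zero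

end Chain

variable [IsAlgClosed Ω] [CharZero k]

namespace Tools
variable (T : Tools τ Ω) {Q : R2 k} {l : Ω × Ω}
include T

omit [IsAlgClosed Ω] [CharZero k] in
lemma fl_ne (hQ : Mir τ Q) (hl : Gen k l) : fl Q l ≠ 0 := fun e => by
  have := (T.mon Q l hQ.irr hQ.deg hl).1
  have h2 := hQ.deg
  rw [e, Polynomial.natDegree_zero] at this
  omega

omit [IsAlgClosed Ω] [CharZero k] in
lemma card (hQ : Mir τ Q) (hl : Gen k l) : (Rts Q l).card = Q.totalDegree :=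
  (T.mon Q l hQ.irr hQ.deg hl).2.1

omit [IsAlgClosed Ω] [CharZero k] in
lemma full (hQ : Mir τ Q) (hl : Gen k l) : Full (Fd k l) (Rts Q l) :=
  (T.mon Q l hQ.irr hQ.deg hl).2.2

/-- a square root of the discriminant -/
lemma rd (hQ : Mir τ Q) (hl : Gen k l) : ∃ r : Ω, r ≠ 0 ∧ r ^ 2 = ev l (Ivrii.disc Q) ∧
    ∀ σ ∈ G (Fd k l), σ r = ((sg σ (Rts Q l) : ℤ) : Ω) * r :=
  rdisc Q l (by have := hQ.deg; omega) hl.t_ne (T.mon Q l hQ.irr hQ.deg hl).1 (T.card hQ hl)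

lemma disc_ne (hQ : Mir τ Q) (hl : Gen k l) : Ivrii.disc Q ≠ 0 := fun e => by
  obtain ⟨r, h0, h1, -⟩ := T.rd hQ hl
  rw [e, map_zero] at h1
  exact h0 (pow_eq_zero_iff two_ne_zero |>.1 h1)

omit [IsAlgClosed Ω] [CharZero k] in
lemma ntv (ch : Chain τ Ω) (hQ : Mir τ Q) (h3 : 3 ≤ Q.totalDegree) : ¬ ch.Triv (Ivrii.disc Q) :=
  fun h => by
    obtain ⟨π, h1, -, h2⟩ := T.tanp Q hQ.irr h3
    obtain ⟨-, q, -, h4, h5⟩ := h π h1
    exact h2 q h4 h5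

omit [IsAlgClosed Ω] in
/-- all reflections of a generic line in a mirror with one generic reflection are generic -/
lemma gen_rfx (hQ : Mir τ Q) {A l' : Ω × Ω} (h : Lk Q l A l') {x : Ω} (hx : x ∈ Rts Q l) :
    Gen k (rfx Q l x) := by
  obtain ⟨σ, hσ, e⟩ := (T.full hQ h.gen).move (h.pos_mem (T.fl_ne hQ h.gen)) hx
  rw [← e, ← rfx_G hσ, h.rfx_eq]
  exact h.gen'.map σ

variable (ch : Chain τ Ω)

omit [IsAlgClosed Ω] in
lemma x1_Rts (h : 1 ≤ ch.N) : ch.x1 ∈ Rts (ch.Q 1) (ch.l 1) :=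
  (ch.lk 0 h).symm.pos_mem (T.fl_ne (ch.mir 1 le_rfl h) (ch.gen 1 h))

omit [IsAlgClosed Ω] in
lemma x2_Rts (h : ch.Two) : ch.x2 ∈ Rts (ch.Q 1) (ch.l 1) := by
  rw [← h.2]
  exact (ch.lk 1 h.1).pos_mem (T.fl_ne (ch.mir 2 (by omega) h.1) (ch.gen 1 (by have := h.1; omega)))

omit [IsAlgClosed Ω] T in
lemma _root_.Ivrii.Chain.x1_ne_x2 (h : 2 ≤ ch.N) : ch.x1 ≠ ch.x2 := fun e =>
  ch.ne 1 le_rfl h (by
    rw [← (ch.lk 0 (by omega)).symm.pt_eq, ← (ch.lk 1 h).pt_eq]; exact congrArg _ e)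

omit [IsAlgClosed Ω] T in
lemma _root_.Ivrii.Chain.rfx_x1 (h : 1 ≤ ch.N) : rfx (ch.Q 1) (ch.l 1) ch.x1 = ch.l 0 :=
  (ch.lk 0 h).symm.rfx_eq

omit [IsAlgClosed Ω] T in
lemma _root_.Ivrii.Chain.rfx_x2 (h : ch.Two) : rfx (ch.Q 1) (ch.l 1) ch.x2 = ch.l 2 := by
  rw [← h.2]; exact (ch.lk 1 h.1).rfx_eq

omit [IsAlgClosed Ω] in
lemma x1_Rem (h : 1 ≤ ch.N) : ch.x1 ∈ ch.Rem :=
  ch.mem_Rem.2 ⟨T.x1_Rts ch h, fun h' => ch.x1_ne_x2 h'.1.1 h'.2⟩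

omit [IsAlgClosed Ω] [CharZero k] in
lemma three_le (h : ch.TypeN) : 3 ≤ ch.Rem.card := by
  classical
  have hc := T.card (ch.mir 1 le_rfl h.1) (ch.gen 1 h.1)
  have h3 := h.2.1
  by_cases h2 : ch.Two
  · have : (Rts (ch.Q 1) (ch.l 1)).erase ch.x2 ⊆ ch.Rem := fun x hx =>
      ch.mem_Rem.2 ⟨Finset.mem_of_mem_erase hx, fun h' => Finset.ne_of_mem_erase hx h'.2⟩
    have h4 := Finset.card_le_card this
    have h5 := Finset.pred_card_le_card_erase (s := Rts (ch.Q 1) (ch.l 1)) (a := ch.x2)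
    have h6 : (ch.Q 1).totalDegree ≠ 3 := fun e => h.2.2 ⟨e, h2⟩
    omega
  · have : Rts (ch.Q 1) (ch.l 1) ⊆ ch.Rem := fun x hx => ch.mem_Rem.2 ⟨hx, fun h' => h2 h'.1⟩
    have := Finset.card_le_card this
    omega

omit [IsAlgClosed Ω] [CharZero k] in
/-- `G (M a b)` fixes the points `A (j+1)`, `a ≤ j < b` -/
lemma fix_A {a b j : ℕ} (h1 : a ≤ j) (h2 : j < b) (h3 : j < ch.N) {σ : Ω ≃ₐ[k] Ω}
    (hσ : σ ∈ G (ch.M a b)) : Prod.map σ σ (ch.A (j + 1)) = ch.A (j + 1) :=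
  (ch.lk j h3).fix_pt T.td (ch.Q_ne _ (by omega) h3) (ch.mem_G_M.1 hσ j h1 h2.le)
    (ch.mem_G_M.1 hσ (j + 1) (by omega) h2)

omit [IsAlgClosed Ω] [CharZero k] in
lemma G_le_B0 {j : ℕ} (h1 : 1 ≤ j) (h2 : ch.Two → 2 ≤ j) : G (ch.M 1 j) ≤ G ch.B0 := fun σ hσ => by
  have h := ch.mem_G_M.1 hσ 1 le_rfl h1
  refine ch.mem_G_B0.2 ⟨h, fun ht => ?_⟩
  rw [Chain.x2, pos_map, T.fix_A ch le_rfl (h2 ht) ht.1 hσ, mem_G_Fd'.1 h]

omit [IsAlgClosed Ω] T in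
/-- fixing `M 1 N` and `x1` is fixing `M 0 N` -/
lemma _root_.Ivrii.Chain.mem_G_M0 (h : 1 ≤ ch.N) {b : ℕ} (hb : 1 ≤ b) {σ : Ω ≃ₐ[k] Ω}
    (h1 : σ ∈ G (ch.M 1 b)) (h2 : σ ch.x1 = ch.x1) : σ ∈ G (ch.M 0 b) :=
  ch.mem_G_M.2 fun i _ hi => by
    cases i with
    | zero => exact (ch.lk 0 h).symm.fix_line (ch.mem_G_M.1 h1 1 le_rfl hb) h2
    | succ i => exact ch.mem_G_M.1 h1 _ (by omega) hi

end Tools

end Ivrii
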