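import Pool.Agent.P.MP_7a8567_an.Stm
import Pool.Agent.P.MP_7a8567_an.S3.Gal

set_option autoImplicit false

/-! Basic lemmas: groups `G X`, induced permutations, positions, reflections. -/

namespace Ivrii

open MvPolynomial IntermediateField

section Fields
variable {K L : Type} [Field K] [Field L] [Algebra K L]

/-- the fixed field of one automorphism -/
def Fx (σ : L ≃ₐ[K] L) : IntermediateField K L :=
  (AlgHom.equalizer (σ : L →ₐ[K] L) (AlgHom.id K L)).toIntermediateField fun x hx => by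
    have hx' : σ x = x := hx
    change σ x⁻¹ = x⁻¹
    rw [map_inv₀, hx']

lemma mem_Fx {σ : L ≃ₐ[K] L} {x : L} : x ∈ Fx σ ↔ σ x = x := Iff.rfl

lemma mem_G_le {X : IntermediateField K L} {σ : L ≃ₐ[K] L} : σ ∈ G X ↔ X ≤ Fx σ := mem_G

lemma G_anti {X Y : IntermediateField K L} (h : X ≤ Y) : G Y ≤ G X :=
  fun _ hσ => mem_G_le.2 (h.trans (mem_G_le.1 hσ))

lemma mem_G_sup {X Y : IntermediateField K L} {σ : L ≃ₐ[K] L} :
    σ ∈ G (X ⊔ Y) ↔ σ ∈ G X ∧ σ ∈ G Y := by simp only [mem_G_le, sup_le_iff]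

lemma mem_G_adjoin {S : Set L} {σ : L ≃ₐ[K] L} :
    σ ∈ G (adjoin K S) ↔ ∀ x ∈ S, σ x = x := by
  rw [mem_G_le, adjoin_le_iff]; rfl

lemma G_fix {X : IntermediateField K L} {σ : L ≃ₐ[K] L} (h : σ ∈ G X) {x : L} (hx : x ∈ X) :
    σ x = x := mem_G.1 h x hx

lemma fixG [IsAlgClosed L] [CharZero K] {X : IntermediateField K L} {y : L}
    (h : ∀ σ ∈ G X, σ y = y) : y ∈ X := S3.fix X h

lemma le_of_G [IsAlgClosed L] [CharZero K] {X Y : IntermediateField K L} (h : G Y ≤ G X) :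
    X ≤ Y := fun _ hx => fixG fun _ hσ => G_fix (h hσ) hx

lemma Sq.mono {X Y : IntermediateField K L} (h : X ≤ Y) {u : L} (hu : Sq X u) : Sq Y u :=
  let ⟨r, hr, e⟩ := hu; ⟨r, h hr, e⟩

lemma sq_pm {X : IntermediateField K L} {y : L} (hy : y ^ 2 ∈ X) {σ : L ≃ₐ[K] L} (hσ : σ ∈ G X) :
    σ y = y ∨ σ y = -y :=
  sq_eq_sq_iff_eq_or_eq_neg.1 (by rw [← map_pow, G_fix hσ hy])

lemma stab_iff {σ : L ≃ₐ[K] L} {S : Finset L} (h : ∀ x ∈ S, σ x ∈ S) (x : L) :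
    σ.toEquiv x ∈ S ↔ x ∈ S := by
  classical
  refine ⟨fun hx => ?_, h x⟩
  have h1 : S.image σ = S := Finset.eq_of_subset_of_card_le
    (fun y hy => by obtain ⟨z, hz, rfl⟩ := Finset.mem_image.1 hy; exact h z hz)
    (Finset.card_image_of_injective _ σ.injective).ge
  rw [← h1] at hx
  obtain ⟨z, hz, e⟩ := Finset.mem_image.1 hx
  rwa [← σ.injective e]

lemma pm_coe {σ : L ≃ₐ[K] L} {S : Finset L} (h : ∀ x ∈ S, σ x ∈ S) (x : S) :
    (pm σ S x : L) = σ x := by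
  rw [pm, dif_pos (stab_iff h)]; rfl

lemma pm_eq {σ : L ≃ₐ[K] L} {S : Finset L} {π : Equiv.Perm S} (h : ∀ x : S, σ x = π x) :
    pm σ S = π :=
  Equiv.ext fun x => Subtype.ext (by
    rw [pm_coe (fun y hy => by rw [h ⟨y, hy⟩]; exact (π _).2), h])

/-- the action on a stable finite set -/
noncomputable def pmH (H : Subgroup (L ≃ₐ[K] L)) (S : Finset L) (h : ∀ σ ∈ H, ∀ x ∈ S, σ x ∈ S) :
    H →* Equiv.Perm S where
  toFun σ := pm σ.1 S
  map_one' := pm_eq fun _ => rfl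
  map_mul' σ ρ := pm_eq fun x => by
    rw [Equiv.Perm.mul_apply, pm_coe (h _ σ.2), pm_coe (h _ ρ.2)]; rfl

lemma pmH_apply {H : Subgroup (L ≃ₐ[K] L)} {S : Finset L} (h : ∀ σ ∈ H, ∀ x ∈ S, σ x ∈ S)
    (σ : H) : pmH H S h σ = pm σ.1 S := rfl

lemma pmH_eq_iff {H : Subgroup (L ≃ₐ[K] L)} {S : Finset L} (h : ∀ σ ∈ H, ∀ x ∈ S, σ x ∈ S)
    (σ ρ : H) : pmH H S h σ = pmH H S h ρ ↔ ∀ x ∈ S, σ.1 x = ρ.1 x := by
  constructor
  · intro e x hx
    rw [← pm_coe (h _ σ.2) ⟨x, hx⟩, ← pm_coe (h _ ρ.2) ⟨x, hx⟩, ← pmH_apply h, ← pmH_apply h, e]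
  · intro e
    exact pm_eq fun x => by rw [pmH_apply, pm_coe (h _ ρ.2), e _ x.2]

lemma pmH_eq_one {H : Subgroup (L ≃ₐ[K] L)} {S : Finset L} (h : ∀ σ ∈ H, ∀ x ∈ S, σ x ∈ S)
    (σ : H) : pmH H S h σ = 1 ↔ ∀ x ∈ S, σ.1 x = x := by
  rw [← map_one (pmH H S h), pmH_eq_iff]; rfl

lemma Full.surj {X : IntermediateField K L} {S : Finset L} (hf : Full X S)
    (h : ∀ σ ∈ G X, ∀ x ∈ S, σ x ∈ S) : Function.Surjective (pmH (G X) S h) := fun π =>
  let ⟨σ, hσ, e⟩ := hf π; ⟨⟨σ, hσ⟩, pm_eq e⟩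

lemma full_of_surj {X : IntermediateField K L} {S : Finset L}
    (h : ∀ σ ∈ G X, ∀ x ∈ S, σ x ∈ S) (hs : Function.Surjective (pmH (G X) S h)) : Full X S :=
  fun π => let ⟨σ, e⟩ := hs π; ⟨σ.1, σ.2, fun x => by rw [← e, pmH_apply, pm_coe (h _ σ.2)]⟩

open Classical in
lemma sg_filter {σ : L ≃ₐ[K] L} {S T : Finset L} (h : ∀ x ∈ S, σ x ∈ S) (hT : T ⊆ S)
    (hf : ∀ x ∈ S, x ∉ T → σ x = x) : sg σ T = sg σ S := by
  have hT' : ∀ x ∈ T, σ x ∈ T := fun x hx => by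
    by_contra hn
    have := σ.injective (hf _ (h x (hT hx)) hn)
    exact hn (by rwa [this])
  refine Equiv.Perm.sign_bij (fun x _ => ⟨x.1, hT x.2⟩) (fun x _ _ => Subtype.ext ?_)
    (fun _ _ _ _ e => Subtype.ext (congrArg Subtype.val e :)) fun y hy => ?_
  · rw [pm_coe h]; exact pm_coe hT' x
  · have hy' : σ y ≠ y := fun e => hy (Subtype.ext (by rw [pm_coe h, e]))
    have hyT : y.1 ∈ T := by_contra fun hn => hy' (hf _ y.2 hn)
    exact ⟨⟨y.1, hyT⟩, fun e => hy' (by rw [← pm_coe hT' ⟨y.1, hyT⟩, e]), rfl⟩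

open Classical in
/-- restriction of `Full` to a subset, fixing the complement -/
lemma Full.sub {X : IntermediateField K L} {S T : Finset L} (hf : Full X S) (hT : T ⊆ S)
    (π : Equiv.Perm T) : ∃ σ ∈ G X, (∀ x : T, σ x = π x) ∧ ∀ x ∈ S, x ∉ T → σ x = x := by
  let e : T ≃ {x : S // x.1 ∈ T} :=
    ⟨fun x => ⟨⟨x.1, hT x.2⟩, x.2⟩, fun x => ⟨x.1.1, x.2⟩, fun _ => rfl, fun _ => rfl⟩
  obtain ⟨σ, hσ, h⟩ := hf (π.extendDomain e)
  refine ⟨σ, hσ, fun x => ?_, fun x hx hn => ?_⟩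
  · have := h (e x).1
    rw [Equiv.Perm.extendDomain_apply_image] at this
    exact this
  · have := h ⟨x, hx⟩
    rwa [Equiv.Perm.extendDomain_apply_not_subtype π e (b := ⟨x, hx⟩) hn] at this

lemma Full.move {X : IntermediateField K L} {S : Finset L} (hf : Full X S) {x y : L} (hx : x ∈ S)
    (hy : y ∈ S) : ∃ σ ∈ G X, σ x = y := by
  classical
  obtain ⟨σ, hσ, h⟩ := hf (Equiv.swap ⟨x, hx⟩ ⟨y, hy⟩)
  exact ⟨σ, hσ, by simpa using h ⟨x, hx⟩⟩

end Fields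

section Geo
variable {k L L' : Type} [Field k] [Field L] [Algebra k L] [Field L'] [Algebra k L']

lemma mem_G_Fd {l : L × L} {σ : L ≃ₐ[k] L} : σ ∈ G (Fd k l) ↔ σ l.1 = l.1 ∧ σ l.2 = l.2 := by
  simp [Fd, mem_G_adjoin]

lemma mem_G_Fd' {l : L × L} {σ : L ≃ₐ[k] L} : σ ∈ G (Fd k l) ↔ Prod.map σ σ l = l := by
  rw [mem_G_Fd, Prod.ext_iff]; rfl

lemma fst_mem_Fd (l : L × L) : l.1 ∈ Fd k l := subset_adjoin _ _ (by simp)

lemma snd_mem_Fd (l : L × L) : l.2 ∈ Fd k l := subset_adjoin _ _ (by simp)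

lemma Fd_le {l : L × L} {X : IntermediateField k L} : Fd k l ≤ X ↔ l.1 ∈ X ∧ l.2 ∈ X := by
  simp [Fd, adjoin_le_iff, Set.insert_subset_iff]

section Map
variable {F : Type} [FunLike F L L']

lemma pt_map [RingHomClass F L L'] (ψ : F) (l : L × L) (x : L) :
    Prod.map ψ ψ (pt l x) = pt (Prod.map ψ ψ l) (ψ x) := by
  simp [pt, map_ofNat]

lemma pos_map [RingHomClass F L L'] (ψ : F) (l A : L × L) :
    ψ (pos l A) = pos (Prod.map ψ ψ l) (Prod.map ψ ψ A) := by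
  simp [pos, map_ofNat]

variable [AlgHomClass F k L L'] (ψ : F)

lemma ev_map (a : L × L) (n : R2 k) : ψ (ev a n) = ev (Prod.map ψ ψ a) n := by
  have : (AlgHomClass.toAlgHom ψ).comp (ev a) = ev (Prod.map ψ ψ a) := by
    ext i; fin_cases i <;> simp [ev]
  exact DFunLike.congr_fun this n

lemma qv_map (Q : R2 k) (A : L × L) : ψ (qv Q A) = qv Q (Prod.map ψ ψ A) := by
  simp [qv, ev_map]

lemma rfx_map (Q : R2 k) (l : L × L) (x : L) :
    Prod.map ψ ψ (rfx Q l x) = rfx Q (Prod.map ψ ψ l) (ψ x) := by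
  simp [rfx, thru, qv_map, ← pt_map]

lemma Gen.map {l : L × L} (h : Gen k l) : Gen k (Prod.map ψ ψ l) := by
  have := AlgebraicIndependent.map' (f := AlgHomClass.toAlgHom ψ) h
    (AlgHomClass.toAlgHom ψ).injective
  unfold Gen
  convert this using 1
  ext i; fin_cases i <;> simp

end Map

lemma eval_fl (Q : R2 k) (l : L × L) (x : L) : (fl Q l).eval x = ev (pt l x) Q := by
  have : ((Polynomial.aeval x : Polynomial L →ₐ[L] L).restrictScalars k).comp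
      (aeval ![Polynomial.C l.1 * (Polynomial.X + Polynomial.C (l.2 / 2)),
        (Polynomial.X - Polynomial.C (l.2 / 2)) * Polynomial.C l.1⁻¹]) = ev (pt l x) := by
    ext i; fin_cases i <;> simp [ev, pt, div_eq_mul_inv]
  rw [← this, ← Polynomial.coe_aeval_eq_eval]; rfl

lemma mem_Rts {Q : R2 k} {l : L × L} {x : L} :
    x ∈ Rts Q l ↔ fl Q l ≠ 0 ∧ ev (pt l x) Q = 0 := by
  simp [Rts, eval_fl]

lemma Rts_stab {Q : R2 k} {l : L × L} {σ : L ≃ₐ[k] L} (hσ : σ ∈ G (Fd k l)) :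
    ∀ x ∈ Rts Q l, σ x ∈ Rts Q l := fun x hx => by
  rw [mem_Rts] at hx ⊢
  refine ⟨hx.1, ?_⟩
  have := ev_map σ (pt l x) Q
  rwa [hx.2, map_zero, pt_map, mem_G_Fd'.1 hσ, eq_comm] at this

lemma rfx_G {Q : R2 k} {l : L × L} {σ : L ≃ₐ[k] L} (hσ : σ ∈ G (Fd k l)) (x : L) :
    Prod.map σ σ (rfx Q l x) = rfx Q l (σ x) := by rw [rfx_map, mem_G_Fd'.1 hσ]

lemma t_ne_of_gen {l : L × L} (h : Gen k l) : l.1 ≠ 0 := fun e =>
  (h.transcendental 0) (by simp [e, isAlgebraic_zero])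

lemma gen_of_alg (td : TD2 k L) {l a : L × L} (hl : Gen k l) (h1 : IsAlgebraic (Fd k a) l.1)
    (h2 : IsAlgebraic (Fd k a) l.2) : Gen k a := by
  let E : IntermediateField k L := (algebraicClosure (Fd k a) L).restrictScalars k
  have hE : Fd k l ≤ E := Fd_le.2 ⟨mem_algebraicClosure_iff.2 h1, mem_algebraicClosure_iff.2 h2⟩
  have a1 : Algebra.IsAlgebraic (algebraicClosure (Fd k a) L) L := ⟨fun y =>
    ((td l hl).isAlgebraic y).tower_top_of_subalgebra_le (A := (Fd k l).toSubalgebra)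
      (B := E.toSubalgebra) hE⟩
  have a2 : Algebra.IsAlgebraic (Fd k a) L :=
    Algebra.IsAlgebraic.trans _ (algebraicClosure (Fd k a) L) _
  have hr : Set.range ![a.1, a.2] = {a.1, a.2} := by
    simp [Matrix.range_cons, Set.pair_comm]
  have a3 : Algebra.IsAlgebraic (Algebra.adjoin k (Set.range ![a.1, a.2])) L := by
    rw [hr]; exact isAlgebraic_adjoin_iff_top.1 a2
  exact (Algebra.IsAlgebraic.isTranscendenceBasis_of_lift_le_trdeg_of_finite k _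
    hl.lift_cardinalMk_le_trdeg).1

lemma not_gen {A : L × L} {Q : R2 k} (hQ : Q ≠ 0) (h : ev A Q = 0) : ¬ Gen k A := fun g =>
  hQ (g (by rw [map_zero]; exact h))

variable [CharZero k]

include k in
lemma two_ne : (2 : L) ≠ 0 := by
  have := charZero_of_injective_algebraMap (algebraMap k L).injective
  exact two_ne_zero

include k in
lemma pt_pos {l A : L × L} (ht : l.1 ≠ 0) (h : On l A) : pt l (pos l A) = A := by
  have := two_ne (k := k) (L := L)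
  rw [On] at h
  refine Prod.ext ?_ ?_ <;> simp only [pt, pos, h] <;> field_simp <;> ring

include k in
lemma pos_pt {l : L × L} (ht : l.1 ≠ 0) (x : L) : pos l (pt l x) = x := by
  have := two_ne (k := k) (L := L)
  simp only [pt, pos]; field_simp; ring

namespace Lk
variable {Q : R2 k} {l A l' : L × L}

omit [CharZero k] in
lemma symm (h : Lk Q l A l') : Lk Q l' A l :=
  ⟨h.gen', h.gen, h.on', h.on, h.zero, by rw [mul_comm, h.law]⟩

lemma pt_eq (h : Lk Q l A l') : pt l (pos l A) = A := pt_pos (k := k) (t_ne_of_gen h.gen) h.on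

lemma rfx_eq (h : Lk Q l A l') : rfx Q l (pos l A) = l' := by
  have ht := t_ne_of_gen h.gen
  rw [rfx, h.pt_eq, ← h.law, mul_div_cancel_left₀ _ ht, thru]
  exact Prod.ext rfl h.on'.symm

lemma pos_mem (h : Lk Q l A l') (h0 : fl Q l ≠ 0) : pos l A ∈ Rts Q l :=
  mem_Rts.2 ⟨h0, by rw [h.pt_eq, h.zero]⟩

omit [CharZero k] in
lemma Qz_ne (h : Lk Q l A l') : ev A (pderiv 0 Q) ≠ 0 := fun e =>
  mul_ne_zero (t_ne_of_gen h.gen) (t_ne_of_gen h.gen') (by rw [h.law, qv, e, div_zero])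

omit [CharZero k] in
lemma yv_neg (h : Lk Q l A l') : yv Q l' A = -yv Q l A := by
  have h1 := t_ne_of_gen h.gen
  have h2 := t_ne_of_gen h.gen'
  have h3 := h.Qz_ne
  have h4 : ev A (pderiv 1 Q) = -(ev A (pderiv 0 Q) * (l.1 * l'.1)) := by
    rw [h.law, qv]; field_simp
  simp only [yv, h4]; field_simp; ring

omit [CharZero k] in
lemma sq_ne (td : TD2 k L) (hQ : Q ≠ 0) (h : Lk Q l A l') : l.1 ^ 2 ≠ l'.1 ^ 2 := fun e => by
  have hq : l.1 * l'.1 ∈ Fd k A := by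
    have hm : ∀ n : R2 k, ev A n ∈ Fd k A := fun n => by
      induction n using MvPolynomial.induction_on with
      | C a => simp [ev]
      | add p q hp hq => rw [map_add]; exact add_mem hp hq
      | mul_X p i hp =>
        rw [map_mul]; refine mul_mem hp ?_
        fin_cases i
        · simpa [ev] using fst_mem_Fd A
        · simpa [ev] using snd_mem_Fd A
    rw [h.law, qv]; exact div_mem (neg_mem (hm _)) (hm _)
  have h4 : l.1 ^ 4 ∈ Fd k A := by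
    have : l.1 ^ 4 = (l.1 * l'.1) ^ 2 := by rw [mul_pow, ← e]; ring
    rw [this]; exact pow_mem hq 2
  have h1 : IsAlgebraic (Fd k A) l.1 :=
    IsAlgebraic.of_pow (by norm_num : 0 < 4) (isAlgebraic_algebraMap (⟨_, h4⟩ : Fd k A))
  have hz : IsAlgebraic (Fd k A) A.1 := isAlgebraic_algebraMap (⟨_, fst_mem_Fd A⟩ : Fd k A)
  have hw : IsAlgebraic (Fd k A) A.2 := isAlgebraic_algebraMap (⟨_, snd_mem_Fd A⟩ : Fd k A)
  refine not_gen hQ h.zero (gen_of_alg td h.gen h1 ?_)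
  rw [h.on, div_eq_mul_inv]
  exact (hz.mul h1.inv).sub (hw.mul h1)

omit [CharZero k] in
/-- an automorphism fixing both lines fixes the point -/
lemma fix_pt (td : TD2 k L) (hQ : Q ≠ 0) (h : Lk Q l A l') {σ : L ≃ₐ[k] L} (h1 : σ ∈ G (Fd k l))
    (h2 : σ ∈ G (Fd k l')) : Prod.map σ σ A = A := by
  obtain ⟨a1, a2⟩ := mem_G_Fd.1 h1
  obtain ⟨b1, b2⟩ := mem_G_Fd.1 h2
  have t1 := t_ne_of_gen h.gen
  have t2 := t_ne_of_gen h.gen'
  have hs := sub_ne_zero.2 (h.sq_ne td hQ)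
  have e1 : σ A.1 / l.1 - σ A.2 * l.1 = A.1 / l.1 - A.2 * l.1 := by
    rw [← h.on, ← a2, h.on, map_sub, map_div₀, map_mul, a1]
  have e2 : σ A.1 / l'.1 - σ A.2 * l'.1 = A.1 / l'.1 - A.2 * l'.1 := by
    rw [← h.on', ← b2, h.on', map_sub, map_div₀, map_mul, b1]
  field_simp at e1 e2
  have hw : σ A.2 = A.2 := by
    apply mul_right_cancel₀ hs
    linear_combination e2 - e1
  have hz : σ A.1 = A.1 := by rw [hw] at e1; linear_combination e1
  exact Prod.ext hz hw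

omit [CharZero k] in
lemma fix_pos (td : TD2 k L) (hQ : Q ≠ 0) (h : Lk Q l A l') {σ : L ≃ₐ[k] L} (h1 : σ ∈ G (Fd k l))
    (h2 : σ ∈ G (Fd k l')) : σ (pos l A) = pos l A := by
  rw [pos_map, h.fix_pt td hQ h1 h2, mem_G_Fd'.1 h1]

/-- an automorphism fixing the line and the position fixes the reflected line -/
lemma fix_line (h : Lk Q l A l') {σ : L ≃ₐ[k] L} (h1 : σ ∈ G (Fd k l))
    (h2 : σ (pos l A) = pos l A) : σ ∈ G (Fd k l') := by
  rw [mem_G_Fd', ← h.rfx_eq, rfx_G h1, h2]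

end Lk

end Geo

end Ivrii
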