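import Pool.Agent.P.MP_7a8567_an.Alg.Main
import Pool.Agent.P.MP_7a8567_an.S3.Main
import Pool.Agent.P.MP_7a8567_an.Cub.Main
import Pool.Agent.P.MP_7a8567_an.Cnc.Main

set_option autoImplicit false

/-! The algebraic half. -/

namespace Ivrii

theorem alg0 : ALG0 := fun _ _ _ _ _ _ _ _ ι τ hτ td ch h =>
  no_return ⟨td, disc_spec, conic_spec, S3.monAll td, S3.tanpAll, S3.pclAll td τ hτ,
    cub td ι hτ (S3.monAll td) (S3.pclAll td τ hτ), Con.con τ⟩ ch h

end Ivrii
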