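import Pool.Agent.P.MP_7a8567_an.Alg.Bas

set_option autoImplicit false

/-! The hypothesis `TD2` of `ALG0` can be dropped. -/

namespace Ivrii

open MvPolynomial IntermediateField

namespace Glue2

variable {k L L' : Type} [Field k] [Field L] [Algebra k L] [Field L'] [Algebra k L']

lemma Fd_map (ψ : L →ₐ[k] L') (l : L × L) : (Fd k l).map ψ = Fd k (Prod.map ψ ψ l) := by
  simp [Fd, adjoin_map, Set.image_pair]

lemma gen_of_map (ψ : L →ₐ[k] L') {l : L × L} (h : Gen k (Prod.map ψ ψ l)) : Gen k l := by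
  refine AlgebraicIndependent.of_comp ψ ?_
  unfold Gen at h
  convert h using 1
  ext i; fin_cases i <;> simp

lemma yv_map (ψ : L →ₐ[k] L') (Q : R2 k) (l A : L × L) :
    ψ (yv Q l A) = yv Q (Prod.map ψ ψ l) (Prod.map ψ ψ A) := by
  simp [yv, ev_map]

lemma on_of_map (ψ : L →ₐ[k] L') {l A : L × L} (h : On (Prod.map ψ ψ l) (Prod.map ψ ψ A)) :
    On l A := by
  apply ψ.injective
  simpa [On] using h

lemma lk_of_map (ψ : L →ₐ[k] L') {Q : R2 k} {l A l' : L × L}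
    (h : Lk Q (Prod.map ψ ψ l) (Prod.map ψ ψ A) (Prod.map ψ ψ l')) : Lk Q l A l' where
  gen := gen_of_map ψ h.gen
  gen' := gen_of_map ψ h.gen'
  on := on_of_map ψ h.on
  on' := on_of_map ψ h.on'
  zero := ψ.injective (by
    change ψ _ = ψ _
    rw [ev_map, h.zero, map_zero])
  law := ψ.injective (by
    change ψ _ = ψ _
    rw [qv_map, ← h.law, map_mul]; rfl)

lemma aeval_fl (ψ : L →ₐ[k] L') (Q : R2 k) (l : L × L) (x : L') :
    (fl Q l).eval₂ (ψ : L →+* L') x = ev (pt (Prod.map ψ ψ l) x) Q := by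
  have : ((Polynomial.eval₂AlgHom ψ x fun a => Commute.all _ _)).comp
      (aeval ![Polynomial.C l.1 * (Polynomial.X + Polynomial.C (l.2 / 2)),
        (Polynomial.X - Polynomial.C (l.2 / 2)) * Polynomial.C l.1⁻¹]) =
      ev (pt (Prod.map ψ ψ l) x) := by
    ext i; fin_cases i <;> simp [ev, pt, div_eq_mul_inv, map_ofNat]
  rw [← this]; rfl

lemma td2_of_alg {l : L × L} (hl : Gen k l) (ha : Algebra.IsAlgebraic (Fd k l) L) : TD2 k L := by
  intro a h
  have hr : ∀ b : L × L, Set.range ![b.1, b.2] = {b.1, b.2} := fun b => by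
    simp [Matrix.range_cons, Set.pair_comm]
  have a3 : Algebra.IsAlgebraic (Algebra.adjoin k (Set.range ![l.1, l.2])) L := by
    rw [hr]; exact isAlgebraic_adjoin_iff_top.1 ha
  have b1 : IsTranscendenceBasis k ![l.1, l.2] :=
    (AlgebraicIndependent.isTranscendenceBasis_iff_isAlgebraic hl).2 a3
  have b2 : IsTranscendenceBasis k ![a.1, a.2] :=
    AlgebraicIndependent.isTranscendenceBasis_of_lift_trdeg_le_of_finite h
      b1.lift_cardinalMk_eq_trdeg.ge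
  have := b2.isAlgebraic_field
  rwa [hr] at this

lemma fl_ne [CharZero k] (td : TD2 k L) [IsAlgClosed L] {Q : R2 k} (hQ : Q ≠ 0) {l : L × L}
    (hl : Gen k l) : fl Q l ≠ 0 := fun e => by
  have h0 : ev (pt l 0) Q = 0 := by rw [← eval_fl, e, Polynomial.eval_zero]
  have ht := t_ne_of_gen hl
  have hP : l.2 ≠ 0 := fun e => (hl.transcendental 1) (by simp [e, isAlgebraic_zero])
  have h2 := two_ne (k := k) (L := L)
  have m1 := fst_mem_Fd (k := k) (pt l 0)
  have m2 := snd_mem_Fd (k := k) (pt l 0)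
  have s1 : l.1 ^ 2 ∈ Fd k (pt l 0) := by
    have : l.1 ^ 2 = -((pt l 0).1 / (pt l 0).2) := by
      simp only [pt, zero_add, zero_sub]; field_simp
    rw [this]; exact neg_mem (div_mem m1 m2)
  have s2 : l.2 ^ 2 ∈ Fd k (pt l 0) := by
    have : l.2 ^ 2 = -(((pt l 0).1 + (pt l 0).1) * ((pt l 0).2 + (pt l 0).2)) := by
      simp only [pt]; field_simp; ring
    rw [this]; exact neg_mem (mul_mem (add_mem m1 m1) (add_mem m2 m2))
  exact not_gen hQ h0 (gen_of_alg td hl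
    (IsAlgebraic.of_pow (by norm_num : 0 < 2) (isAlgebraic_algebraMap (⟨_, s1⟩ : Fd k _)))
    (IsAlgebraic.of_pow (by norm_num : 0 < 2) (isAlgebraic_algebraMap (⟨_, s2⟩ : Fd k _))))

/-- one link stays inside an algebraically closed subfield -/
lemma step [CharZero k] [IsAlgClosed L] (td : TD2 k L) (ψ : L →ₐ[k] L') {Q : R2 k} (hQ : Q ≠ 0)
    {l : L × L} {A l' : L' × L'} (h : Lk Q (Prod.map ψ ψ l) A l') :
    (∃ B, Prod.map ψ ψ B = A) ∧ ∃ m, Prod.map ψ ψ m = l' := by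
  have h0 := fl_ne td hQ (gen_of_map ψ h.gen)
  have h1 : (fl Q l).eval₂ (ψ : L →+* L') (pos (Prod.map ψ ψ l) A) = 0 := by
    rw [aeval_fl, h.pt_eq, h.zero]
  obtain ⟨x, hx⟩ : ∃ x, ψ x = pos (Prod.map ψ ψ l) A := by
    have hs := IsAlgClosed.splits (fl Q l)
    have hm : pos (Prod.map ψ ψ l) A ∈ ((fl Q l).map (ψ : L →+* L')).roots := by
      rw [Polynomial.mem_roots (Polynomial.map_ne_zero h0), Polynomial.IsRoot,
        Polynomial.eval_map, h1]
    rw [hs.roots_map] at hm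
    obtain ⟨x, -, hx⟩ := Multiset.mem_map.1 hm
    exact ⟨x, hx⟩
  refine ⟨⟨pt l x, ?_⟩, rfx Q l x, ?_⟩
  · rw [pt_map, hx, h.pt_eq]
  · rw [rfx_map, hx, h.rfx_eq]

end Glue2

open Glue2 in
/-- the hypothesis `TD2` can be dropped -/
theorem alg_of_alg0 (H : ALG0) {k Ω : Type} [Field k] [Field Ω] [Algebra k Ω] [IsAlgClosed k]
    [IsAlgClosed Ω] [CharZero k] (ι : ℝ →+* k) (τ : k →+* k) (hτ : ∀ x, τ (τ x) = x)
    (ch : Chain τ Ω) (hN : 1 ≤ ch.N) : Fd k (ch.l ch.N) ≠ Fd k (ch.l 0) := by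
  classical
  let E : IntermediateField k Ω := (algebraicClosure (Fd k (ch.l 0)) Ω).restrictScalars k
  have hE : IsAlgClosed E :=
    (algebraicClosure.isAlgClosure (Fd k (ch.l 0)) Ω).isAlgClosed
  let ψ : E →ₐ[k] Ω := E.val
  let l0 : E × E :=
    (⟨(ch.l 0).1, (algebraicClosure (Fd k (ch.l 0)) Ω).algebraMap_mem
        (⟨_, fst_mem_Fd (ch.l 0)⟩ : Fd k (ch.l 0))⟩,
      ⟨(ch.l 0).2, (algebraicClosure (Fd k (ch.l 0)) Ω).algebraMap_mem
        (⟨_, snd_mem_Fd (ch.l 0)⟩ : Fd k (ch.l 0))⟩)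
  have e0 : Prod.map ψ ψ l0 = ch.l 0 := rfl
  have td : TD2 k E := by
    refine td2_of_alg (l := l0) (gen_of_map ψ (e0 ▸ ch.gen0)) ⟨fun y => ?_⟩
    have hy : IsAlgebraic ((Fd k l0).map ψ) (ψ y) := by
      rw [Fd_map, e0]; exact mem_algebraicClosure_iff.1 y.2
    exact hy.of_ringHom_of_comp_eq (equivMap (Fd k l0) ψ) ψ (equivMap (Fd k l0) ψ).surjective
      ψ.injective (RingHom.ext fun _ => rfl)
  have hQ : ∀ j, j < ch.N → ch.Q (j + 1) ≠ 0 := fun j hj =>
    (ch.mir (j + 1) (by omega) hj).irr.ne_zero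
  have hl : ∀ j, j ≤ ch.N → ∃ m, Prod.map ψ ψ m = ch.l j := by
    intro j
    induction j with
    | zero => exact fun _ => ⟨l0, e0⟩
    | succ j ih =>
      intro hj
      obtain ⟨m, hm⟩ := ih (by omega)
      exact (step td ψ (hQ j hj) (hm ▸ ch.lk j hj)).2
  have hA : ∀ j, 1 ≤ j ∧ j ≤ ch.N → ∃ B, Prod.map ψ ψ B = ch.A j := by
    rintro j ⟨h1, hj⟩
    obtain ⟨j, rfl⟩ : ∃ i, j = i + 1 := ⟨j - 1, by omega⟩
    obtain ⟨m, hm⟩ := hl j (by omega)
    exact (step td ψ (hQ j hj) (hm ▸ ch.lk j hj)).1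
  choose! l hl using hl
  choose! A hA using hA
  let ch' : Chain τ E :=
    { N := ch.N
      l := l
      A := A
      Q := ch.Q
      gen0 := gen_of_map ψ (by rw [hl 0 (by omega)]; exact ch.gen0)
      mir := ch.mir
      lk := fun j hj => lk_of_map ψ (by
        rw [hl j hj.le, hl (j + 1) hj, hA (j + 1) ⟨by omega, hj⟩]; exact ch.lk j hj)
      ne := fun j h1 hj e => ch.ne j h1 hj (by
        rw [← hA j ⟨h1, hj.le⟩, ← hA (j + 1) ⟨by omega, hj⟩, e])
      nrm := ch.nrm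
      sgn := fun i j hi hj e hd e' => ch.sgn i j hi hj e hd (by
        rw [← hl i hi.le, ← hl j hj.le, ← hA (i + 1) ⟨by omega, hi⟩, ← hA (j + 1) ⟨by omega, hj⟩,
          ← yv_map, ← yv_map, ← map_add, e', map_zero]) }
  intro e
  refine H k E ι τ hτ td ch' hN (IntermediateField.map_injective ψ ?_)
  rw [Fd_map, Fd_map]
  change Fd k (Prod.map ψ ψ (l ch.N)) = Fd k (Prod.map ψ ψ (l 0))
  rw [hl _ le_rfl, hl _ (by omega), e]

end Ivrii
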