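import Pool.Agent.P.MP_7a8567_an.Stm
import Pool.Agent.P.MP_7a8567_an.S3.Gal

set_option autoImplicit false

namespace Ivrii
open MvPolynomial

section MQ
variable {k Ω : Type} [Field k] [Field Ω] [Algebra k Ω] [IsAlgClosed Ω] [CharZero k]

theorem mq (X : IntermediateField k Ω) (hX : Algebra.IsAlgebraic X Ω) {ι : Type} [Fintype ι]
    (y : ι → Ω) (hy : ∀ i, y i ^ 2 ∈ X)
    (hs : ∀ S : Finset ι, S.Nonempty → ¬ Sq X (∏ i ∈ S, y i ^ 2)) (ε : ι → ℤˣ) :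
    ∃ σ ∈ G X, ∀ i, σ (y i) = ((ε i : ℤ) : Ω) * y i := by
  have _ := hX
  have h : ∀ S : Finset ι, S.Nonempty → ∏ i ∈ S, y i ∉ X := by
    intro S hS hm
    exact hs S hS ⟨∏ i ∈ S, y i, hm, by rw [Finset.prod_pow]⟩
  obtain ⟨σ, hσ, hσy⟩ := S3.mq X y hy h {i | ε i = -1}
  refine ⟨σ, hσ, fun i => ?_⟩
  rcases Int.units_eq_one_or (ε i) with h1 | h1
  · have hn : i ∉ {i | ε i = -1} := by
      simp only [Set.mem_ofPred_eq, h1]
      decide
    rw [(hσy i).2 hn, h1]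
    simp
  · rw [(hσy i).1 h1, h1]
    simp

end MQ
end Ivrii
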