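import Pool.Agent.P.MP_7a8567_an.Alg.Ch

set_option autoImplicit false

/-! Statement ODD of the induction. -/

namespace Ivrii

variable {k Ω : Type} [Field k] [Field Ω] [Algebra k Ω] {τ : k →+* k} [IsAlgClosed Ω] [CharZero k]

section Odd

omit [IsAlgClosed Ω] [CharZero k] in
lemma odd_sq_fix {σ : Ω ≃ₐ[k] Ω} {S : Finset Ω} (hS : S.card ≤ 2) (h : ∀ x ∈ S, σ x ∈ S) {x : Ω}
    (hx : x ∈ S) : σ (σ x) = x := by
  by_contra hn
  have h1 : σ x ≠ x := fun e => hn (by rw [e, e])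
  have h2 : σ (σ x) ≠ σ x := fun e => h1 (σ.injective e)
  have : 2 < S.card := Finset.two_lt_card.2
    ⟨x, hx, σ x, h x hx, σ (σ x), h _ (h x hx), h1.symm, Ne.symm hn, h2.symm⟩
  omega

omit [IsAlgClosed Ω] in
lemma odd_card_le (T : Tools τ Ω) (c : Chain τ Ω) (h1 : 1 ≤ c.N) (hN : ¬ c.TypeN) :
    c.Rem.card ≤ 2 := by
  classical
  have hm := c.mir 1 le_rfl h1
  have hc := T.card hm (c.gen 1 h1)
  by_cases h3 : 3 ≤ (c.Q 1).totalDegree
  · have h4 : (c.Q 1).totalDegree = 3 ∧ c.Two := by_contra fun h => hN ⟨h1, h3, h⟩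
    have hsub : c.Rem ⊆ (Rts (c.Q 1) (c.l 1)).erase c.x2 := fun x hx =>
      Finset.mem_erase.2 ⟨fun e => (c.mem_Rem.1 hx).2 ⟨h4.2, e⟩, c.Rem_sub hx⟩
    have := Finset.card_le_card hsub
    rw [Finset.card_erase_of_mem (T.x2_Rts c h4.2), hc, h4.1] at this
    exact this
  · have := Finset.card_le_card c.Rem_sub
    omega

omit [IsAlgClosed Ω] [CharZero k] in
/-- `G (M 1 j)` induces all permutations of the remaining roots -/
lemma odd_full (ch : Chain τ Ω) (ih : ch.IH) (hN : ch.TypeN) {j : ℕ} (h1 : 1 ≤ j)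
    (h2 : ch.Two → 2 ≤ j) (hj : j < ch.N) : Full (ch.M 1 j) ch.Rem := by
  have hle : 0 + j ≤ ch.N := by omega
  let d := ch.sub 0 j hle
  have hT : d.Two ↔ ch.Two :=
    ⟨fun h => ⟨by have : 2 ≤ j := h.1; omega, h.2⟩, fun h => ⟨h2 h, h.2⟩⟩
  have hdN : d.TypeN := ⟨h1, hN.2.1, fun h => hN.2.2 ⟨h.1, hT.1 h.2⟩⟩
  have hR : d.Rem = ch.Rem := by
    ext x
    rw [Chain.mem_Rem, Chain.mem_Rem, hT]
    rfl
  have hM : d.M 1 d.N = ch.M 1 j := by
    rw [Chain.sub_M]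
    congr 1
    exact zero_add _
  have := (ih d hj).pn hdN
  rwa [hR, hM] at this

/-- the two discriminants are independent modulo squares -/
lemma odd_nsq (T : Tools τ Ω) (ch : Chain τ Ω) (ih : ch.IH) (hN : ch.TypeN) {j : ℕ} (h1 : 1 ≤ j)
    (h2 : ch.Two → 2 ≤ j) (hj : j < ch.N) :
    ¬ Sq (ch.M 1 j) (ev (ch.l 1) (disc (ch.Q 1)) * ev (ch.l j) (disc (ch.Q (j + 1)))) := by
  intro hs
  have hm := ch.mir 1 le_rfl hN.1
  have hm' := ch.mir (j + 1) (by omega) hj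
  have g1 := ch.gen 1 hN.1
  have gj := ch.gen j hj.le
  have d1 := T.disc_ne hm g1
  have d2 := T.disc_ne hm' gj
  rcases Nat.lt_or_ge j 2 with h | h
  · obtain rfl : j = 1 := by omega
    have hna : ¬ Associated (ch.Q 1) (ch.Q (1 + 1)) := fun ha => by
      have := h2 ⟨hj, (ch.nrm 1 (1 + 1) le_rfl hN.1 (by omega) hj ha).symm⟩
      omega
    obtain ⟨π, p1, p2, -⟩ := T.tanp _ hm.irr hN.2.1
    rw [Chain.M_self, ← map_mul] at hs
    exact sq0 g1 (mul_ne_zero d1 d2) hs π (OddP.mul d1 p1 (p2 _ hm'.irr hm'.deg hna))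
  · have hle : 1 + (j - 1) ≤ ch.N := by omega
    let e := ch.sub 1 (j - 1) hle
    have hl : e.l e.N = ch.l j := congrArg ch.l (by change 1 + (j - 1) = j; omega)
    have hM : e.M 0 e.N = ch.M 1 j := by
      rw [Chain.sub_M]
      congr 1
      change 1 + (j - 1) = j
      omega
    refine T.ntv e hm hN.2.1 ((ih e (by change j - 1 < _; omega)).rr _ d1
      (ev (ch.l j) (disc (ch.Q (j + 1)))) (by rw [hl]; exact ev_mem_Fd _ _) (gj.ev_ne d2)
      (fun h0 => by change j - 1 = 0 at h0; omega) ?_)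
    rw [hM]
    exact hs

lemma odd_next (T : Tools τ Ω) (ch : Chain τ Ω) (ih : ch.IH) (hN : ch.TypeN) {Y : Finset Ω}
    (hY : TwoSet ch.B0 ch.Rem Y) {j : ℕ} (h1 : 1 ≤ j) (h2 : ch.Two → 2 ≤ j) (hj : j < ch.N)
    {s : Ω ≃ₐ[k] Ω} (hs : s ∈ G (ch.M 1 j)) (h3 : ∀ y ∈ Y, (s ^ 3) y = y) :
    ∃ s' ∈ G (ch.M 1 j), (∀ y ∈ Y, s' y = s y) ∧
      s' (pos (ch.l j) (ch.A (j + 1))) = pos (ch.l j) (ch.A (j + 1)) := by
  classical
  have hle : 1 + j ≤ ch.N := by omega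
  let c := (ch.sub 1 j hle).rev
  have cN : c.N = j := rfl
  have cl : c.l 1 = ch.l j := congrArg ch.l (by change 1 + (j - 1) = j; omega)
  have cA : c.A 1 = ch.A (j + 1) := congrArg ch.A (by change 1 + (j + 1 - 1) = j + 1; omega)
  have cQ : c.Q 1 = ch.Q (j + 1) := congrArg ch.Q (by change 1 + (j + 1 - 1) = j + 1; omega)
  have cx : c.x1 = pos (ch.l j) (ch.A (j + 1)) := by rw [Chain.x1, cl, cA]
  have cM : c.M 1 j = ch.M 1 j := by
    rw [Chain.rev_M _ 1 j h1 le_rfl, Chain.sub_M]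
    congr 1
    · change 1 + (j - j) = 1
      omega
    · change 1 + (j - 1) = j
      omega
  have hB : G (ch.M 1 j) ≤ G ch.B0 := T.G_le_B0 ch h1 h2
  have hB' : G (ch.M 1 j) ≤ G c.B0 := by
    rw [← cM]
    exact T.G_le_B0 c h1 fun h => h.1
  have hx : c.x1 ∈ c.Rem := T.x1_Rem c h1
  rw [← cx]
  by_cases hc : c.TypeN
  · have sY : ∀ σ ∈ G (ch.M 1 j), ∀ y ∈ Y, σ y ∈ Y := fun σ h => hY.stab σ (hB h)
    have sR : ∀ σ ∈ G (ch.M 1 j), ∀ y ∈ ch.Rem, σ y ∈ ch.Rem := fun σ h => ch.Rem_stab (hB h)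
    have sC : ∀ σ ∈ G (ch.M 1 j), ∀ y ∈ c.Rem, σ y ∈ c.Rem := fun σ h => c.Rem_stab (hB' h)
    have fC : Full (ch.M 1 j) c.Rem := by
      rw [← cM]
      exact (ih c hj).pn hc
    obtain ⟨e, he⟩ := hY.two
    obtain ⟨g, hg1, hg2⟩ := gl (pmH _ Y sY) (pmH _ ch.Rem sR) (pmH _ c.Rem sC)
      ((odd_full ch ih hN h1 h2 hj).surj sR) (fC.surj sC)
      (by rw [Fintype.card_coe]; exact T.three_le ch hN) e
      (fun g hg => by
        rw [← map_pow, pmH_eq_one]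
        exact he g.1 (hB g.2) ((pmH_eq_one _ _).1 hg))
      (by
        by_contra hn
        push Not at hn
        obtain ⟨r, -, hr, hσ⟩ := T.rd (ch.mir 1 le_rfl hN.1) (ch.gen 1 hN.1)
        obtain ⟨r', -, hr', hσ'⟩ := T.rd (c.mir 1 le_rfl h1) (c.gen 1 h1)
        refine odd_nsq T ch ih hN h1 h2 hj ⟨r * r', fixG fun σ h => ?_, ?_⟩
        · have e1 : sg σ ch.Rem = sg σ c.Rem := by
            have := hn ⟨σ, h⟩
            rw [pmH_apply, pmH_apply] at this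
            unfold sg
            convert this
          rw [map_mul, hσ σ (ch.mem_G_B0.1 (hB h)).1, hσ' σ (c.mem_G_B0.1 (hB' h)).1,
            ← ch.sg_Rem (hB h), ← c.sg_Rem (hB' h), e1]
          rcases Int.units_eq_one_or (sg σ c.Rem) with e2 | e2 <;> rw [e2] <;> simp
        · rw [mul_pow, hr, hr', cl, cQ])
      ⟨s, hs⟩ (by
        rw [← map_pow, pmH_eq_one]
        exact h3)
    exact ⟨g.1, g.2, (pmH_eq_iff sY g ⟨s, hs⟩).1 hg2, (pmH_eq_one sC g).1 hg1 _ hx⟩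
  · have hf := odd_sq_fix (odd_card_le T c h1 hc) (c.Rem_stab (hB' hs)) hx
    refine ⟨s ^ 4, pow_mem hs 4, fun y hy => ?_, ?_⟩
    · rw [pow_succ', AlgEquiv.mul_apply, h3 y hy]
    · change s (s (s (s c.x1))) = _
      rw [hf, hf]

theorem odd_step (T : Tools τ Ω) (ch : Chain τ Ω) (ih : ch.IH) : ch.ODD := by
  intro hN Y hY
  have key : ∀ j, 1 ≤ j → (ch.Two → 2 ≤ j) → j ≤ ch.N → Odd3 ch.B0 (ch.M 1 j) Y := by
    intro j
    induction j with
    | zero => intro h; omega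
    | succ j ihj =>
      intro _ h2 hj σ hσ h3
      by_cases hb : 1 ≤ j ∧ (ch.Two → 2 ≤ j)
      · obtain ⟨s, hs, e⟩ := ihj hb.1 hb.2 (by omega) σ hσ h3
        obtain ⟨s', hs', e1, e2⟩ := odd_next T ch ih hN hY hb.1 hb.2 hj hs fun y hy => by
          have a1 := hY.stab σ hσ y hy
          have a2 := hY.stab σ hσ _ a1
          change s (s (s y)) = y
          rw [e y hy, e _ a1, e _ a2]
          exact h3 y hy
        refine ⟨s', ch.mem_G_M.2 fun i a b => ?_, fun y hy => (e1 y hy).trans (e y hy)⟩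
        rcases Nat.lt_or_ge j i with h | h
        · obtain rfl : i = j + 1 := by omega
          exact (ch.lk j hj).fix_line (ch.mem_G_M.1 hs' j hb.1 le_rfl) e2
        · exact ch.mem_G_M.1 hs' i a h
      · obtain ⟨b1, b2⟩ := ch.mem_G_B0.1 hσ
        refine ⟨σ, ch.mem_G_M.2 fun i a b => ?_, fun _ _ => rfl⟩
        rcases Nat.lt_or_ge 1 i with h | h
        · have ht : ch.Two := by_contra fun ht => hb ⟨by omega, fun h => absurd h ht⟩
          have hj2 : j < 2 := by_contra fun h' => hb ⟨by omega, fun _ => by omega⟩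
          obtain rfl : i = 2 := by omega
          exact (ch.lk 1 ht.1).fix_line b1 (b2 ht)
        · obtain rfl : i = 1 := by omega
          exact b1
  exact key ch.N hN.1 (fun h => h.1) le_rfl

end Odd

end Ivrii
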