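import Pool.Agent.P.MP_7a8567_an.Alg.Ch

set_option autoImplicit false

/-! Statement R for chains of type N (paper, section 7). -/

namespace Ivrii

open IntermediateField

variable {k Ω : Type} [Field k] [Field Ω] [Algebra k Ω] {τ : k →+* k} [IsAlgClosed Ω] [CharZero k]

section RN

/-- a square root in `M 0 N` of an element of `M 1 N` lies in `M 1 N` -/
lemma rn_root (T : Tools τ Ω) (ch : Chain τ Ω) (hp : ch.PN) (hN : ch.TypeN) {c : Ω}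
    (hc : c ∈ ch.M 0 ch.N) (hc2 : c ^ 2 ∈ ch.M 1 ch.N) : c ∈ ch.M 1 ch.N := by
  classical
  have h1 : 1 ≤ ch.N := hN.1
  have hf := hp hN
  have hS : ∀ ρ ∈ G (ch.M 1 ch.N), ρ ch.x1 = ch.x1 → ρ c = c := fun ρ hρ e =>
    G_fix (ch.mem_G_M0 h1 h1 hρ e) hc
  have hD : ∀ ρ ∈ G (ch.M 1 ch.N), ∀ ρ' ∈ G (ch.M 1 ch.N), ρ ch.x1 = ρ' ch.x1 → ρ c = ρ' c :=
    fun ρ hρ ρ' hρ' e => by
      have := hS (ρ'⁻¹ * ρ) (mul_mem (inv_mem hρ') hρ) (by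
        rw [AlgEquiv.mul_apply, e, ← AlgEquiv.mul_apply, inv_mul_cancel, AlgEquiv.one_apply])
      have h2 := congrArg ρ' this
      rwa [← AlgEquiv.mul_apply, ← mul_assoc, mul_inv_cancel, one_mul] at h2
  refine fixG fun σ hσ => ?_
  rcases sq_pm hc2 hσ with e | e
  · exact e
  by_cases hy : σ ch.x1 = ch.x1
  · exact hS σ hσ hy
  have hx : ch.x1 ∈ ch.Rem := T.x1_Rem ch h1
  have hyR : σ ch.x1 ∈ ch.Rem :=
    ch.Rem_stab (T.G_le_B0 ch h1 (fun h => h.1) hσ) _ hx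
  obtain ⟨z, hz, hz'⟩ : ∃ z ∈ ch.Rem, z ∉ ({ch.x1, σ ch.x1} : Finset Ω) :=
    Finset.exists_mem_notMem_of_card_lt_card
      (lt_of_le_of_lt Finset.card_le_two (T.three_le ch hN))
  simp only [Finset.mem_insert, Finset.mem_singleton, not_or] at hz'
  set x : ch.Rem := ⟨ch.x1, hx⟩ with hxd
  set y : ch.Rem := ⟨σ ch.x1, hyR⟩ with hyd
  set w : ch.Rem := ⟨z, hz⟩ with hwd
  have hxy : x ≠ y := fun h => hy (congrArg Subtype.val h).symm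
  have hxw : x ≠ w := fun h => hz'.1 (congrArg Subtype.val h).symm
  have hyw : y ≠ w := fun h => hz'.2 (congrArg Subtype.val h).symm
  obtain ⟨υ, hυ, eυ⟩ := hf (Equiv.swap y w)
  obtain ⟨ρ, hρ, eρ⟩ := hf (Equiv.swap x w * Equiv.swap x y)
  have a1 : υ ch.x1 = ch.x1 := by
    have := eυ x
    rwa [Equiv.swap_apply_of_ne_of_ne hxy hxw] at this
  have a2 : υ (σ ch.x1) = z := by
    have := eυ y
    rwa [Equiv.swap_apply_left] at this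
  have a3 : ρ ch.x1 = σ ch.x1 := by
    have := eρ x
    rwa [Equiv.Perm.mul_apply, Equiv.swap_apply_left,
      Equiv.swap_apply_of_ne_of_ne hxy.symm hyw] at this
  have a4 : ρ (σ ch.x1) = z := by
    have := eρ y
    rwa [Equiv.Perm.mul_apply, Equiv.swap_apply_right, Equiv.swap_apply_left] at this
  have b1 : ρ c = -c := (hD ρ hρ σ hσ a3).trans e
  have b2 := hD (ρ * ρ) (mul_mem hρ hρ) (υ * σ) (mul_mem hυ hσ) (by
    rw [AlgEquiv.mul_apply, AlgEquiv.mul_apply, a3, a4, a2])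
  rw [AlgEquiv.mul_apply, AlgEquiv.mul_apply, b1, e, map_neg, map_neg, b1, hS υ hυ a1,
    neg_neg] at b2
  rw [e, ← b2]

/-- the discriminant of the first mirror is not a square up to `M 1 N` -/
lemma rn_disc (T : Tools τ Ω) (ch : Chain τ Ω) (hs : ch.SS) (hN : ch.TypeN) {m : Ω}
    (hm : m ∈ ch.M 1 ch.N) (hm0 : m ≠ 0) :
    ¬ Sq (ch.M 0 ch.N) (ev (ch.l 0) (disc (ch.Q 1)) * m) := fun hsq => by
  have h1 : 1 ≤ ch.N := hN.1
  have hQ := ch.mir 1 le_rfl h1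
  have hd : disc (ch.Q 1) ≠ 0 := T.disc_ne hQ (ch.gen 1 h1)
  obtain ⟨π, hπ, -⟩ := T.tanp _ hQ.irr hN.2.1
  rcases hs hN _ hd m hm hm0 hsq with h | ⟨h2, h⟩
  · exact h π hπ
  have hle : ch.M 0 2 ≤ Fd k (ch.l 1) ⊔ adjoin k {ch.x1, ch.x2} := le_of_G fun σ hσ => by
    obtain ⟨g1, g2⟩ := mem_G_sup.1 hσ
    have g3 := mem_G_adjoin.1 g2
    refine ch.mem_G_M.2 fun i _ hi => ?_
    interval_cases i
    · exact (ch.lk 0 h1).symm.fix_line g1 (g3 _ (by simp [Chain.x1]))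
    · exact g1
    · exact (ch.lk 1 h2.1).fix_line g1 (g3 _ (by simp [Chain.x2]))
  refine T.pcl (ch.Q 1) _ _ (ch.l 1) ch.x1 ch.x2 hQ hN.2.1 hd hd (fun _ h => h) (ch.gen 1 h1)
    (T.x1_Rts ch h1) (T.x2_Rts ch h2) (ch.x1_ne_x2 h2.1) ?_ ?_ ?_ π hπ
  · rw [ch.rfx_x1 h1]; exact ch.gen0
  · rw [ch.rfx_x2 h2]; exact ch.gen 2 h2.1
  · rw [ch.rfx_x1 h1, ch.rfx_x2 h2]; exact h.mono hle

theorem rn_step (T : Tools τ Ω) (ch : Chain τ Ω) (ih : ch.IH) (hp : ch.PN) (hs : ch.SS)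
    (hN : ch.TypeN) : ch.RR := by
  intro n hn m hm hm0 _ hsq
  have h1 : 1 ≤ ch.N := hN.1
  rcases hs hN n hn m (ch.Fd_le_M h1 le_rfl hm) hm0 hsq with h | ⟨h2, a, ha, ea⟩
  · exact fun π hπ => absurd hπ (h π)
  exfalso
  have h2N := h2.1
  obtain ⟨b, hb, eb⟩ := hsq
  have n0 : ev (ch.l 0) n ≠ 0 := ch.gen0.ev_ne hn
  have n2 : ev (ch.l 2) n ≠ 0 := (ch.gen 2 h2N).ev_ne hn
  have hc : a * b / ev (ch.l 0) n ∈ ch.M 0 ch.N :=
    div_mem (mul_mem (ch.M_mono le_rfl h2N ha) hb)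
      (ch.Fd_le_M le_rfl (by omega) (ev_mem_Fd _ _))
  have ec : ev (ch.l 1) (disc (ch.Q 1)) * (m * ev (ch.l 2) n) =
      (a * b / ev (ch.l 0) n) ^ 2 := by
    rw [div_pow, mul_pow, ← ea, ← eb]; field_simp
  have hu : m * ev (ch.l 2) n ∈ ch.M 2 ch.N :=
    mul_mem (ch.Fd_le_M h2N le_rfl hm) (ch.Fd_le_M le_rfl h2N (ev_mem_Fd _ _))
  have hc1 := rn_root T ch hp hN hc (ec ▸ mul_mem (ch.Fd_le_M le_rfl h1 (ev_mem_Fd _ _))
    (ch.M_mono (by omega) le_rfl hu))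
  have hb1 : 1 + (ch.N - 1) ≤ ch.N := by omega
  have hQ : (ch.sub 1 (ch.N - 1) hb1).Q 1 = ch.Q 1 := h2.2
  have hN' : (ch.sub 1 (ch.N - 1) hb1).TypeN := by
    refine ⟨by change 1 ≤ ch.N - 1; omega, by rw [hQ]; exact hN.2.1, fun h => ?_⟩
    rw [hQ] at h
    exact hN.2.2 ⟨h.1, h2⟩
  have e1 : 1 + (ch.sub 1 (ch.N - 1) hb1).N = ch.N := by change 1 + (ch.N - 1) = ch.N; omega
  refine rn_disc T _ (ih _ (by change ch.N - 1 < ch.N; omega)).ss hN'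
    (m := m * ev (ch.l 2) n) ?_ (mul_ne_zero hm0 n2) ?_
  · rw [ch.sub_M, e1]; exact hu
  · rw [ch.sub_M, e1, hQ]; exact ⟨_, hc1, ec⟩

end RN

end Ivrii
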