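import Pool.Agent.P.MP_7a8567_an.Alg.Ch

set_option autoImplicit false

/-! Statement S of the induction (paper, section 7). -/

namespace Ivrii

open MvPolynomial IntermediateField

section Abs
variable {K L : Type} [Field K] [Field L] [Algebra K L]

/-- an equivariant section along an orbit -/
lemma ss_sec {X : IntermediateField K L} {x1 r1 : L}
    (h : ∀ σ ∈ G X, σ x1 = x1 → σ r1 = r1) : ∃ r : L → L, ∀ σ ∈ G X, r (σ x1) = σ r1 := by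
  classical
  refine ⟨fun x => if hx : ∃ σ ∈ G X, σ x1 = x then hx.choose r1 else 0, fun σ hσ => ?_⟩
  have hx : ∃ ρ ∈ G X, ρ x1 = σ x1 := ⟨σ, hσ, rfl⟩
  simp only [dif_pos hx]
  obtain ⟨h1, h2⟩ := hx.choose_spec
  have h3 := h (σ⁻¹ * hx.choose) (mul_mem (inv_mem hσ) h1)
    (by rw [AlgEquiv.mul_apply, h2]; exact σ.symm_apply_apply _)
  rw [AlgEquiv.mul_apply] at h3
  exact (σ.apply_symm_apply _).symm.trans (congrArg σ h3)

lemma ss_pm {σ : L ≃ₐ[K] L} {y : L} (h : σ (y ^ 2) = y ^ 2) : σ y = y ∨ σ y = -y :=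
  sq_eq_sq_iff_eq_or_eq_neg.1 (by rw [← map_pow, h])

lemma ss_twice {σ : L ≃ₐ[K] L} {y : L} (h : σ (y ^ 2) = y ^ 2) : σ (σ y) = y := by
  rcases ss_pm h with e | e
  · rw [e, e]
  · rw [e, map_neg, e, neg_neg]

lemma ss_pow {σ ρ : L ≃ₐ[K] L} {Y : Finset L} (hs : ∀ y ∈ Y, ρ y ∈ Y) (h : ∀ y ∈ Y, σ y = ρ y)
    (j : ℕ) : ∀ y ∈ Y, (σ ^ j) y = (ρ ^ j) y := by
  induction j with
  | zero => exact fun _ _ => rfl
  | succ j ih =>
    intro y hy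
    rw [pow_succ, pow_succ, AlgEquiv.mul_apply, AlgEquiv.mul_apply, h y hy, ih _ (hs y hy)]

variable {F B : IntermediateField K L} {S R Y : Finset L} {u s : L → L}

lemma ss_stab (hS : ∀ σ ∈ G F, ∀ x ∈ S, σ x ∈ S) (hu : ∀ σ ∈ G F, ∀ x, σ (u x) = u (σ x))
    (hY : ∀ y, y ∈ Y ↔ y ∈ S ∨ ∃ x ∈ S, y ^ 2 = u x) : ∀ σ ∈ G F, ∀ y ∈ Y, σ y ∈ Y := by
  intro σ hσ y hy
  rcases (hY y).1 hy with h | ⟨x, hx, h⟩
  · exact (hY _).2 (Or.inl (hS σ hσ y h))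
  · exact (hY _).2 (Or.inr ⟨σ x, hS σ hσ x hx, by rw [← map_pow, h, hu σ hσ]⟩)

lemma ss_two (hu : ∀ σ ∈ G F, ∀ x, σ (u x) = u (σ x))
    (hY : ∀ y, y ∈ Y ↔ y ∈ S ∨ ∃ x ∈ S, y ^ 2 = u x) {σ : L ≃ₐ[K] L} (hσ : σ ∈ G F)
    (h : ∀ x ∈ S, σ x = x) : ∀ y ∈ Y, σ (σ y) = y := by
  intro y hy
  rcases (hY y).1 hy with h1 | ⟨x, hx, h1⟩
  · rw [h y h1, h y h1]
  · exact ss_twice (by rw [h1, hu σ hσ, h x hx])

/-- the product of two values of the section is fixed by everything that fixes the roots -/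
lemma ss_pair (hS : ∀ σ ∈ G F, ∀ x ∈ S, σ x ∈ S) (hf : Full F S) (hR : R ⊆ S) (h3 : 3 ≤ R.card)
    (hB : ∀ σ ∈ G F, (∀ x ∈ S, x ∉ R → σ x = x) → σ ∈ G B)
    (hu : ∀ σ ∈ G F, ∀ x, σ (u x) = u (σ x))
    (hY : ∀ y, y ∈ Y ↔ y ∈ S ∨ ∃ x ∈ S, y ^ 2 = u x) (hs : ∀ x ∈ R, s x ^ 2 = u x)
    (hK : ∀ h ∈ G B, (∀ y ∈ Y, (h ^ 3) y = y) → ∀ x ∈ R, h (s x) = s (h x))
    {x y : L} (hx : x ∈ R) (hy : y ∈ R) (hxy : x ≠ y) {v : L ≃ₐ[K] L} (hv : v ∈ G F)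
    (hvS : ∀ z ∈ S, v z = z) : v (s x * s y) = s x * s y := by
  classical
  obtain ⟨z, hz, hzx, hzy⟩ : ∃ z ∈ R, z ≠ x ∧ z ≠ y := by
    by_contra hn
    have : R ⊆ {x, y} := fun w hw => by
      by_contra hc
      simp only [Finset.mem_insert, Finset.mem_singleton, not_or] at hc
      exact hn ⟨w, hw, hc⟩
    have := (Finset.card_le_card this).trans Finset.card_le_two
    omega
  let a : S := ⟨x, hR hx⟩
  let b : S := ⟨y, hR hy⟩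
  let c : S := ⟨z, hR hz⟩
  have hab : a ≠ b := fun e => hxy (congrArg Subtype.val e)
  have hac : a ≠ c := fun e => hzx (congrArg Subtype.val e).symm
  have hcb : c ≠ b := fun e => hzy (congrArg Subtype.val e)
  obtain ⟨g, hg, hgπ⟩ := hf (Equiv.swap a c * Equiv.swap a b)
  have hπ : (Equiv.swap a c * Equiv.swap a b) ^ 3 = 1 := by
    rw [← (Equiv.Perm.isThreeCycle_swap_mul_swap_same hac hab hcb).orderOf]
    exact pow_orderOf_eq_one _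
  have hg3 : ∀ w ∈ S, (g ^ 3) w = w :=
    (pmH_eq_one hS (⟨g, hg⟩ ^ 3)).1 (by rw [map_pow, pmH_apply, pm_eq hgπ, hπ])
  have hgx : g x = y := by
    have := hgπ a
    rwa [Equiv.Perm.mul_apply, Equiv.swap_apply_left,
      Equiv.swap_apply_of_ne_of_ne hab.symm hcb.symm] at this
  have hgB : g ∈ G B := hB g hg fun w hw hn => by
    have h1 : (⟨w, hw⟩ : S) ≠ a := fun e => hn (by rw [show w = x from congrArg Subtype.val e]; exact hx)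
    have h2 : (⟨w, hw⟩ : S) ≠ b := fun e => hn (by rw [show w = y from congrArg Subtype.val e]; exact hy)
    have h4 : (⟨w, hw⟩ : S) ≠ c := fun e => hn (by rw [show w = z from congrArg Subtype.val e]; exact hz)
    have := hgπ ⟨w, hw⟩
    rwa [Equiv.Perm.mul_apply, Equiv.swap_apply_of_ne_of_ne h1 h2,
      Equiv.swap_apply_of_ne_of_ne h1 h4] at this
  have hvB : v ∈ G B := hB v hv fun w hw _ => hvS w hw
  have hh3 : ∀ w ∈ Y, ((g ^ 4) ^ 3) w = w := fun w hw => by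
    have e : (g ^ 4) ^ 3 = g ^ 3 * (g ^ 3 * (g ^ 3 * g ^ 3)) := by
      rw [← pow_mul, ← pow_add, ← pow_add, ← pow_add]
    have h2 := ss_two hu hY (pow_mem hg 3) hg3 w hw
    rw [e, AlgEquiv.mul_apply, AlgEquiv.mul_apply, AlgEquiv.mul_apply, h2, h2]
  have hhx : (g ^ 4) x = y := by
    rw [pow_succ', AlgEquiv.mul_apply, hg3 x (hR hx), hgx]
  have hvx : v⁻¹ x = x := by
    conv_lhs => rw [← hvS x (hR hx)]
    exact v.symm_apply_apply x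
  have e1 := hK _ (pow_mem hgB 4) hh3 x hx
  have e2 := hK (v * g ^ 4 * v⁻¹) (mul_mem (mul_mem hvB (pow_mem hgB 4)) (inv_mem hvB))
    (fun w hw => by
      rw [conj_pow, AlgEquiv.mul_apply, AlgEquiv.mul_apply,
        hh3 _ (ss_stab hS hu hY _ (inv_mem hv) w hw)]
      exact v.apply_symm_apply w) x hx
  rw [hhx] at e1
  simp only [AlgEquiv.mul_apply] at e2
  rw [hvx, hhx, hvS y (hR hy)] at e2
  have hi : v (v⁻¹ (s x)) = s x := v.apply_symm_apply _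
  rcases ss_pm (σ := v⁻¹) (y := s x) (by rw [hs x hx, hu _ (inv_mem hv), hvx]) with e | e
  · rw [e] at hi
    rw [e, e1] at e2
    rw [map_mul, hi, e2]
  · rw [e, map_neg, neg_eq_iff_eq_neg] at hi
    rw [e, map_neg, e1, map_neg, neg_eq_iff_eq_neg] at e2
    rw [map_mul, hi, e2, neg_mul_neg]

open Classical in
/-- the character of an element whose square is fixed -/
noncomputable def ssChi (H : Subgroup (L ≃ₐ[K] L)) (e : L) (h : ∀ σ ∈ H, σ (e ^ 2) = e ^ 2)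
    (h2 : e ≠ -e) : H →* ℤˣ where
  toFun σ := if σ.1 e = e then 1 else -1
  map_one' := if_pos rfl
  map_mul' σ ρ := by
    have e0 : (σ * ρ).1 e = σ.1 (ρ.1 e) := rfl
    rw [e0]
    rcases ss_pm (h _ σ.2) with a | a <;> rcases ss_pm (h _ ρ.2) with b | b <;>
      simp [a, b, h2.symm]

lemma ssChi_spec (H : Subgroup (L ≃ₐ[K] L)) (e : L) (h : ∀ σ ∈ H, σ (e ^ 2) = e ^ 2)
    (h2 : e ≠ -e) (σ : H) : σ.1 e = ((ssChi H e h h2 σ : ℤ) : L) * e := by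
  classical
  have e0 : ssChi H e h h2 σ = if σ.1 e = e then 1 else -1 := rfl
  rw [e0]
  rcases ss_pm (h _ σ.2) with a | a <;> simp [a, h2.symm]

/-- an element fixed by the fixer of the roots, with square fixed by the fixer of two roots -/
lemma ss_dich [IsAlgClosed L] [CharZero K] (hS : ∀ σ ∈ G F, ∀ x ∈ S, σ x ∈ S) (hf : Full F S)
    {x y e r : L} (hx : x ∈ S) (hy : y ∈ S) (he : e ≠ 0)
    (h1 : ∀ σ ∈ G F, σ x = x → σ y = y → σ (e ^ 2) = e ^ 2)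
    (h2 : ∀ σ ∈ G F, (∀ z ∈ S, σ z = z) → σ e = e)
    (hr : ∀ σ ∈ G F, σ r = ((sg σ S : ℤ) : L) * r) :
    e ∈ F ⊔ adjoin K {x, y} ∨ e * r ∈ F ⊔ adjoin K {x, y} := by
  classical
  have hm : ∀ σ : L ≃ₐ[K] L, σ ∈ G (F ⊔ adjoin K {x, y}) ↔ σ ∈ G F ∧ σ x = x ∧ σ y = y := by
    intro σ
    simp [mem_G_sup, mem_G_adjoin]
  have hne : e ≠ -e := fun h => by
    have : (2 : L) * e = 0 := by linear_combination h
    exact mul_ne_zero (two_ne (k := K)) he this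
  let T : Finset L := S.filter fun z => z ≠ x ∧ z ≠ y
  have hT : T ⊆ S := Finset.filter_subset _ _
  have hoff : ∀ σ ∈ G (F ⊔ adjoin K {x, y}), ∀ z ∈ S, z ∉ T → σ z = z := fun σ hσ z hz hn => by
    obtain ⟨-, a, b⟩ := (hm σ).1 hσ
    by_cases c : z = x
    · rw [c, a]
    by_cases d : z = y
    · rw [d, b]
    exact absurd (Finset.mem_filter.2 ⟨hz, c, d⟩) hn
  have hst : ∀ σ ∈ G (F ⊔ adjoin K {x, y}), ∀ z ∈ T, σ z ∈ T := fun σ hσ z hz => by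
    obtain ⟨c, a, b⟩ := (hm σ).1 hσ
    obtain ⟨z1, z2, z3⟩ := Finset.mem_filter.1 hz
    exact Finset.mem_filter.2 ⟨hS σ c z z1, fun h => z2 (σ.injective (h.trans a.symm)),
      fun h => z3 (σ.injective (h.trans b.symm))⟩
  have hfull : Full (F ⊔ adjoin K {x, y}) T := fun π => by
    obtain ⟨σ, a, b, c⟩ := hf.sub hT π
    exact ⟨σ, (hm σ).2 ⟨a, c x hx fun h => (Finset.mem_filter.1 h).2.1 rfl,
      c y hy fun h => (Finset.mem_filter.1 h).2.2 rfl⟩, b⟩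
  have hsq : ∀ σ ∈ G (F ⊔ adjoin K {x, y}), σ (e ^ 2) = e ^ 2 := fun σ hσ =>
    let ⟨a, b, c⟩ := (hm σ).1 hσ; h1 σ a b c
  have hk : ∀ g : G (F ⊔ adjoin K {x, y}), pmH _ T hst g = 1 → ssChi _ e hsq hne g = 1 :=
    fun g hg => if_pos (h2 g.1 ((hm _).1 g.2).1 fun z hz => by
      by_cases c : z ∈ T
      · exact (pmH_eq_one hst g).1 hg z c
      · exact hoff _ g.2 z hz c)
  rcases g2' _ (hfull.surj hst) _ hk with h | h
  · refine Or.inl (fixG fun σ hσ => ?_)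
    have := ssChi_spec _ e hsq hne ⟨σ, hσ⟩
    rw [h] at this
    simpa using this
  · refine Or.inr (fixG fun σ hσ => ?_)
    have h3 := ssChi_spec _ e hsq hne ⟨σ, hσ⟩
    have h4 : Equiv.Perm.sign (pmH _ T hst ⟨σ, hσ⟩) = sg σ S := by
      rw [← sg_filter (hS σ ((hm σ).1 hσ).1) hT (hoff σ hσ), sg, pmH_apply]
    rw [h, h4] at h3
    rw [map_mul, h3, hr σ ((hm σ).1 hσ).1]
    rcases Int.units_eq_one_or (sg σ S) with c | c <;> simp [c]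

end Abs

variable {k Ω : Type} [Field k] [Field Ω] [Algebra k Ω] {τ : k →+* k} [IsAlgClosed Ω] [CharZero k]

section SS
theorem ss_step (T : Tools τ Ω) (ch : Chain τ Ω) (ho : ch.ODD) (hp : ch.PN) : ch.SS := by
  classical
  intro hN n hn m hm hm0 hsq
  obtain ⟨r1, hr1, er1⟩ := hsq
  have h1 : 1 ≤ ch.N := hN.1
  have hQ := ch.mir 1 le_rfl h1
  have hl := ch.gen 1 h1
  have hf := T.full hQ hl
  have hS : ∀ σ ∈ G (Fd k (ch.l 1)), ∀ x ∈ Rts (ch.Q 1) (ch.l 1), σ x ∈ Rts (ch.Q 1) (ch.l 1) :=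
    fun σ hσ => Rts_stab hσ
  have hgen : ∀ x ∈ Rts (ch.Q 1) (ch.l 1), Gen k (rfx (ch.Q 1) (ch.l 1) x) := fun x hx =>
    T.gen_rfx hQ (ch.lk 0 h1).symm hx
  obtain ⟨u, hud⟩ : ∃ u : Ω → Ω, ∀ x, u x = ev (rfx (ch.Q 1) (ch.l 1) x) n := ⟨_, fun _ => rfl⟩
  have hu : ∀ σ ∈ G (Fd k (ch.l 1)), ∀ x, σ (u x) = u (σ x) := fun σ hσ x => by
    rw [hud, hud, ev_map, rfx_G hσ]
  have hu0 : ∀ x ∈ Rts (ch.Q 1) (ch.l 1), u x ≠ 0 := fun x hx => by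
    rw [hud]; exact (hgen x hx).ev_ne hn
  have hu1 : u ch.x1 = ev (ch.l 0) n := by rw [hud, ch.rfx_x1 h1]
  have hMB : G (ch.M 1 ch.N) ≤ G ch.B0 := T.G_le_B0 ch h1 fun h => h.1
  have hBF : G ch.B0 ≤ G (Fd k (ch.l 1)) := fun σ hσ => (ch.mem_G_B0.1 hσ).1
  have hx1 := T.x1_Rem ch h1
  obtain ⟨μ, hμ⟩ := IsAlgClosed.exists_pow_nat_eq m (n := 2) two_pos
  have hμ0 : μ ≠ 0 := fun e => hm0 (by rw [← hμ, e, zero_pow two_ne_zero])
  obtain ⟨r, hr⟩ := ss_sec (X := ch.M 1 ch.N) (x1 := ch.x1) (r1 := r1) fun σ a b =>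
    G_fix (ch.mem_G_M0 h1 h1 a b) hr1
  have hrr : ∀ σ ∈ G (ch.M 1 ch.N), ∀ x ∈ ch.Rem, σ (r x) = r (σ x) := fun σ hσ x hx => by
    obtain ⟨ρ, hρ, rfl⟩ := (hp hN).move hx1 hx
    rw [hr ρ hρ]
    exact (hr (σ * ρ) (mul_mem hσ hρ)).symm
  have hr2 : ∀ x ∈ ch.Rem, (r x / μ) ^ 2 = u x := fun x hx => by
    obtain ⟨ρ, hρ, rfl⟩ := (hp hN).move hx1 hx
    rw [hr ρ hρ, div_pow, hμ, ← map_pow, ← er1, map_mul, G_fix hρ hm, ← hu1,
      hu ρ (hBF (hMB hρ)), mul_div_cancel_right₀ _ hm0]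
  obtain ⟨Y, hY⟩ : ∃ Y : Finset Ω, ∀ y, y ∈ Y ↔
      y ∈ Rts (ch.Q 1) (ch.l 1) ∨ ∃ x ∈ Rts (ch.Q 1) (ch.l 1), y ^ 2 = u x :=
    ⟨Rts (ch.Q 1) (ch.l 1) ∪ (Rts (ch.Q 1) (ch.l 1)).biUnion
      fun x => (Polynomial.nthRoots 2 (u x)).toFinset, fun y => by
      simp only [Finset.mem_union, Finset.mem_biUnion, Multiset.mem_toFinset,
        Polynomial.mem_nthRoots two_pos]⟩
  have hYs := ss_stab hS hu hY
  have hodd := ho hN Y ⟨fun σ hσ => hYs σ (hBF hσ), 1, fun σ hσ h y hy =>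
    ss_two hu hY (hBF hσ) (fun x hx => by
      by_cases c : x ∈ ch.Rem
      · exact h x c
      · exact ch.fix_of_not_Rem hσ x hx c) y hy⟩
  have hK : ∀ h ∈ G ch.B0, (∀ y ∈ Y, (h ^ 3) y = y) → ∀ x ∈ ch.Rem,
      h (r x / μ) = r (h x) / μ := fun h hh h3 x hx => by
    obtain ⟨g, hg, e⟩ := hodd h hh h3
    have e4 : ∀ y ∈ Y, (g ^ 4) y = h y := fun y hy => by
      rw [ss_pow (hYs h (hBF hh)) e 4 y hy, pow_succ', AlgEquiv.mul_apply, h3 y hy]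
    have e5 : (g ^ 4) μ = μ := by
      have e6 : g (g μ) = μ := ss_twice (by rw [hμ, G_fix hg hm])
      have e7 : g ^ 4 = g * (g * (g * g)) := by
        rw [pow_succ', pow_succ', pow_two]
      rw [e7, AlgEquiv.mul_apply, AlgEquiv.mul_apply, AlgEquiv.mul_apply, e6, e6]
    rw [← e4 _ ((hY _).2 (Or.inr ⟨x, ch.Rem_sub hx, hr2 x hx⟩)),
      ← e4 x ((hY _).2 (Or.inl (ch.Rem_sub hx))), map_div₀, e5, hrr _ (pow_mem hg 4) x hx]
  obtain ⟨y0, hy0, hy1⟩ : ∃ y0 ∈ ch.Rem, y0 ≠ ch.x1 :=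
    Finset.exists_mem_ne (by have := T.three_le ch hN; omega) _
  have hpair : ∀ v ∈ G (Fd k (ch.l 1)), (∀ z ∈ Rts (ch.Q 1) (ch.l 1), v z = z) →
      v (r ch.x1 / μ * (r y0 / μ)) = r ch.x1 / μ * (r y0 / μ) := fun v hv hvS =>
    ss_pair (s := fun x => r x / μ) hS hf ch.Rem_sub (T.three_le ch hN)
      (fun σ hσ h => ch.mem_G_B0.2 ⟨hσ, fun ht => h _ (T.x2_Rts ch ht) fun c =>
        (ch.mem_Rem.1 c).2 ⟨ht, rfl⟩⟩) hu hY hr2 hK hx1 hy0 hy1.symm hv hvS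
  have hpcl : ∀ y ∈ Rts (ch.Q 1) (ch.l 1), ch.x1 ≠ y → ∀ e ∈ Fd k (ch.l 1) ⊔ adjoin k {ch.x1, y},
      e ^ 2 = u ch.x1 * u y → ∀ π, ¬ OddP n π := fun y hy hxy e he h =>
    T.pcl (ch.Q 1) n 1 (ch.l 1) ch.x1 y hQ hN.2.1 hn one_ne_zero
      (fun π hπ => absurd hπ (not_oddP_one π)) hl (ch.Rem_sub hx1) hy hxy
      (hgen _ (ch.Rem_sub hx1)) (hgen y hy) ⟨e, he, by rw [map_one, mul_one, h, hud, hud]⟩
  have he0 : (r ch.x1 / μ * (r y0 / μ)) ^ 2 = u ch.x1 * u y0 := by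
    rw [mul_pow, hr2 _ hx1, hr2 _ hy0]
  by_cases ht : ch.Two
  · have hx2 := T.x2_Rts ch ht
    have h12 := ch.x1_ne_x2 ht.1
    obtain ⟨ρ, hρ, hρπ⟩ := hf (Equiv.swap ⟨y0, ch.Rem_sub hy0⟩ ⟨ch.x2, hx2⟩)
    have a1 : ρ ch.x1 = ch.x1 := by
      have := hρπ ⟨ch.x1, ch.Rem_sub hx1⟩
      rwa [Equiv.swap_apply_of_ne_of_ne (fun e => hy1 (congrArg Subtype.val e).symm)
        (fun e => h12 (congrArg Subtype.val e))] at this
    have a2 : ρ y0 = ch.x2 := by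
      have := hρπ ⟨y0, ch.Rem_sub hy0⟩
      rwa [Equiv.swap_apply_left] at this
    have he : ρ (r ch.x1 / μ * (r y0 / μ)) ^ 2 = u ch.x1 * u ch.x2 := by
      rw [← map_pow, he0, map_mul, hu ρ hρ, hu ρ hρ, a1, a2]
    obtain ⟨d, -, hd, hdσ⟩ := T.rd hQ hl
    rcases ss_dich (x := ch.x1) (y := ch.x2) (e := ρ (r ch.x1 / μ * (r y0 / μ))) hS hf
      (ch.Rem_sub hx1) hx2
      (fun e => mul_ne_zero (hu0 _ (ch.Rem_sub hx1)) (hu0 _ hx2)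
        (by rw [← he, e, zero_pow two_ne_zero]))
      (fun σ hσ b c => by rw [he, map_mul, hu σ hσ, hu σ hσ, b, c])
      (fun σ hσ b => by
        have := hpair (ρ⁻¹ * σ * ρ) (mul_mem (mul_mem (inv_mem hρ) hσ) hρ) fun z hz => by
          rw [AlgEquiv.mul_apply, AlgEquiv.mul_apply, b _ (hS ρ hρ z hz)]
          exact ρ.symm_apply_apply z
        rw [AlgEquiv.mul_apply, AlgEquiv.mul_apply] at this
        exact (ρ.apply_symm_apply _).symm.trans (congrArg ρ this)) hdσ with h | h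
    · exact Or.inl (hpcl _ hx2 h12 _ h he)
    · refine Or.inr ⟨ht, _, (le_of_G fun σ hσ => ?_ : _ ≤ ch.M 0 2) h, ?_⟩
      · have b := ch.mem_G_M.1 hσ 1 (by omega) (by omega)
        refine mem_G_sup.2 ⟨b, mem_G_adjoin.2 ?_⟩
        rintro z (rfl | rfl)
        · rw [Chain.x1, pos_map, T.fix_A ch (j := 0) le_rfl two_pos h1 hσ, mem_G_Fd'.1 b]
        · rw [Chain.x2, pos_map, T.fix_A ch (j := 1) (by omega) (by omega) ht.1 hσ,
            mem_G_Fd'.1 b]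
      · rw [mul_pow, he, hd, hu1, hud, ch.rfx_x2 ht]
  · refine Or.inl (hpcl y0 (ch.Rem_sub hy0) hy1.symm _ (fixG fun g hg => ?_) he0)
    obtain ⟨g1, g2⟩ := mem_G_sup.1 hg
    have g3 := mem_G_adjoin.1 g2 ch.x1 (by simp)
    have g4 := mem_G_adjoin.1 g2 y0 (by simp)
    have gB : g ∈ G ch.B0 := ch.mem_G_B0.2 ⟨g1, fun c => absurd c ht⟩
    obtain ⟨σ, hσ, e⟩ := hp hN (pm g ch.Rem)
    have e' : ∀ z ∈ ch.Rem, σ z = g z := fun z hz =>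
      (e ⟨z, hz⟩).trans (pm_coe (ch.Rem_stab gB) ⟨z, hz⟩)
    have b := hpair (σ⁻¹ * g) (mul_mem (inv_mem (hBF (hMB hσ))) g1) fun z hz => by
      rw [AlgEquiv.mul_apply, ← e' z (ch.mem_Rem.2 ⟨hz, fun c => ht c.1⟩)]
      exact σ.symm_apply_apply z
    rw [AlgEquiv.mul_apply] at b
    refine ((σ.apply_symm_apply _).symm.trans (congrArg σ b)).trans ?_
    rw [div_mul_div_comm, ← pow_two, hμ, map_div₀, map_mul, G_fix hσ hm, hrr σ hσ _ hx1,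
      hrr σ hσ _ hy0, e' _ hx1, e' _ hy0, g3, g4]
end SS

end Ivrii
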