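import Pool.Agent.P.MP_7a8567_an.Alg.Pn
import Pool.Agent.P.MP_7a8567_an.Alg.Odd
import Pool.Agent.P.MP_7a8567_an.Alg.SS
import Pool.Agent.P.MP_7a8567_an.Alg.RN

set_option autoImplicit false

/-! The induction of section 7. -/

namespace Ivrii

variable {k Ω : Type} [Field k] [Field Ω] [Algebra k Ω] {τ : k →+* k} [IsAlgClosed Ω] [CharZero k]

theorem good_step (T : Tools τ Ω) (ch : Chain τ Ω) (ih : ch.IH) : ch.Good := by
  have ho := odd_step T ch ih
  have hp := pn_step T ch ih ho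
  have hs := ss_step T ch ho hp
  refine ⟨ho, hp, hs, ?_⟩
  rcases Nat.eq_zero_or_pos ch.N with h0 | h1
  · exact r0_step ch h0
  by_cases h2 : (ch.Q 1).totalDegree = 2
  · exact (rb_step T ch ih h1 h2).1
  by_cases hN : ch.TypeN
  · exact rn_step T ch ih hp hs hN
  have h3 : 3 ≤ (ch.Q 1).totalDegree := by have := (ch.mir 1 le_rfl h1).deg; omega
  have h4 : (ch.Q 1).totalDegree = 3 ∧ ch.Two := by_contra fun h => hN ⟨h1, h3, h⟩
  exact rc_step T ch ih h4.1 h4.2

theorem good (T : Tools τ Ω) (ch : Chain τ Ω) : ch.Good := by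
  induction h : ch.N using Nat.strong_induction_on generalizing ch with
  | _ n ih => exact good_step T ch fun c hc => ih _ (h ▸ hc) c rfl

theorem no_return (T : Tools τ Ω) (ch : Chain τ Ω) (h : 1 ≤ ch.N) :
    Fd k (ch.l ch.N) ≠ Fd k (ch.l 0) := fun e => by
  obtain ⟨r, hr, hn⟩ := fin_step T ch (fun c _ => good T c) (good T ch).pn h
  exact hn (e ▸ ch.Fd_le_M hr le_rfl)

end Ivrii
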