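import Pool.Agent.P.MP_7a8567_an.Alg.Ch

set_option autoImplicit false

/-! Statements PN, R for the types B and C, and FIN. -/

namespace Ivrii

open MvPolynomial IntermediateField

variable {k Ω : Type} [Field k] [Field Ω] [Algebra k Ω] {τ : k →+* k} [IsAlgClosed Ω] [CharZero k]

/-- some element of `G (M 1 N)` is odd on the roots -/
lemma exists_odd (T : Tools τ Ω) (ch : Chain τ Ω) (ih : ch.IH) (h1 : 1 ≤ ch.N)
    (h3 : 3 ≤ (ch.Q 1).totalDegree) :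
    ∃ σ ∈ G (ch.M 1 ch.N), sg σ (Rts (ch.Q 1) (ch.l 1)) = -1 := by
  by_contra hn
  push Not at hn
  have hm := ch.mir 1 le_rfl h1
  obtain ⟨r, -, hr, hσ⟩ := T.rd hm (ch.gen 1 h1)
  have hrM : r ∈ ch.M 1 ch.N := fixG fun σ h => by
    rw [hσ σ (G_anti (ch.Fd_le_M le_rfl h1) h), (Int.units_eq_one_or _).resolve_right (hn σ h)]
    simp
  have hle : 1 + (ch.N - 1) ≤ ch.N := by omega
  refine T.ntv _ hm h3 ((ih (ch.sub 1 (ch.N - 1) hle) (by change ch.N - 1 < _; omega)).rr _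
    (T.disc_ne hm (ch.gen 1 h1)) 1 (one_mem _) one_ne_zero (fun _ => rfl) ⟨r, ?_, ?_⟩)
  · rw [Chain.sub_M]
    exact ch.M_mono le_rfl (by change _ ≤ 1 + (ch.N - 1); omega) hrM
  · rw [mul_one, hr]; rfl

theorem pn_step (T : Tools τ Ω) (ch : Chain τ Ω) (ih : ch.IH) (ho : ch.ODD) : ch.PN := by
  classical
  intro hN
  have h1 := hN.1
  have hle := T.G_le_B0 ch h1 fun h => h.1
  have hst : ∀ σ ∈ G (ch.M 1 ch.N), ∀ x ∈ ch.Rem, σ x ∈ ch.Rem := fun σ h => ch.Rem_stab (hle h)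
  refine full_of_surj hst (MonoidHom.range_eq_top.1 ?_)
  obtain ⟨σ, hσ, hs⟩ := exists_odd T ch ih h1 hN.2.1
  refine top_of_three _ (fun c hc => ?_) _ ⟨⟨σ, hσ⟩, rfl⟩ ?_
  · obtain ⟨g, hg, e1, e2⟩ := (T.full (ch.mir 1 le_rfl h1) (ch.gen 1 h1)).sub ch.Rem_sub c
    have hgB : g ∈ G ch.B0 := ch.mem_G_B0.2 ⟨hg, fun ht =>
      e2 _ (T.x2_Rts ch ht) fun h => (ch.mem_Rem.1 h).2 ⟨ht, rfl⟩⟩
    have hY : TwoSet ch.B0 ch.Rem (Rts (ch.Q 1) (ch.l 1)) :=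
      ⟨fun σ h => Rts_stab (ch.mem_G_B0.1 h).1, 0, fun σ h hf y hy => by
        by_cases hy' : y ∈ ch.Rem
        · simpa using hf y hy'
        · simpa using ch.fix_of_not_Rem h y hy hy'⟩
    obtain ⟨g', hg', e⟩ := ho hN _ hY g hgB fun y hy => by
      by_cases hy' : y ∈ ch.Rem
      · have h3 : pmH (G ch.B0) ch.Rem (fun _ h => ch.Rem_stab h) (⟨g, hgB⟩ ^ 3) = 1 := by
          rw [map_pow, pmH_apply, pm_eq e1, ← hc.orderOf, pow_orderOf_eq_one]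
        exact (pmH_eq_one _ _).1 h3 y hy'
      · exact ch.fix_of_not_Rem (pow_mem hgB 3) y hy hy'
    exact ⟨⟨g', hg'⟩, pm_eq fun x => by rw [← e1]; exact e _ (ch.Rem_sub x.2)⟩
  · rw [← ch.sg_Rem (hle hσ)] at hs
    convert hs using 1
    rw [sg, pmH_apply]

lemma exists_run (p : ℕ → Prop) {a N : ℕ} (ha : a ≤ N) (h : ∀ j, 1 ≤ j → j ≤ a → p j) :
    ∃ r, a ≤ r ∧ r ≤ N ∧ (∀ j, 1 ≤ j → j ≤ r → p j) ∧ (r < N → ¬ p (r + 1)) := by
  classical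
  let P : ℕ → Prop := fun r => ∀ j, 1 ≤ j → j ≤ r → p j
  refine ⟨Nat.findGreatest P N, Nat.le_findGreatest ha h, Nat.findGreatest_le N,
    Nat.findGreatest_spec (P := P) ha h, fun hr hp => ?_⟩
  refine Nat.findGreatest_is_greatest (P := P) (Nat.lt_succ_self _) hr fun j h1 h2 => ?_
  rcases Nat.lt_or_ge (Nat.findGreatest P N) j with h3 | h3
  · rwa [show j = Nat.findGreatest P N + 1 by omega]
  · exact Nat.findGreatest_spec (P := P) ha h j h1 h3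

omit [IsAlgClosed Ω] [CharZero k] in
theorem rc_step (T : Tools τ Ω) (ch : Chain τ Ω) (ih : ch.IH) (h3 : (ch.Q 1).totalDegree = 3)
    (h2 : ch.Two) : ch.RR := by
  intro n hn m hm hm0 _ hs π hπ
  obtain ⟨r, hr2, hrN, hrun, hmax⟩ := exists_run (fun j => ch.Q j = ch.Q 1) h2.1 fun j a b => by
    obtain rfl | rfl : j = 1 ∨ j = 2 := by omega
    exacts [rfl, h2.2]
  obtain ⟨s, rfl⟩ : ∃ s, r = s + 1 := ⟨r - 1, by omega⟩
  have hle : s + (ch.N - s) ≤ ch.N := by omega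
  let c := ch.sub s (ch.N - s) hle
  have hQ : c.Q 1 = ch.Q 1 := hrun (s + 1) (by omega) le_rfl
  have hc2 : ¬ c.Two := fun h => hmax (by have : 2 ≤ ch.N - s := h.1; omega) (h.2.trans hQ)
  have hcN : c.TypeN := ⟨by change 1 ≤ ch.N - s; omega, by rw [hQ, h3], fun h => hc2 h.2⟩
  have hB : c.B0 = Fd k (ch.l (s + 1)) := by simp [Chain.B0, hc2]; rfl
  have hR : c.Rem = Rts (ch.Q 1) (ch.l (s + 1)) := by
    ext x; rw [Chain.mem_Rem, hQ]; simp [hc2]; rfl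
  have hM : c.M 1 c.N = ch.M (s + 1) ch.N := by
    rw [Chain.sub_M]; congr 1; change s + (ch.N - s) = _; omega
  have ho := (ih c (by change ch.N - s < _; omega)).odd hcN
  rw [hB, hR, hM] at ho
  have hle' : 0 + (s + 1) ≤ ch.N := by omega
  have hl : (ch.sub 0 (s + 1) hle').l (ch.sub 0 (s + 1) hle').N = ch.l (s + 1) :=
    congrArg ch.l (zero_add _)
  refine absurd hπ (T.cub (ch.sub 0 (s + 1) hle') (ch.Q 1) (ch.M (s + 1) ch.N) hr2 h3
    (fun j a b => hrun (0 + j) (by omega) (by change j ≤ s + 1 at b; omega))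
    (by rw [hl]; exact ch.Fd_le_M le_rfl hrN) (by rw [hl]; exact ho) n hn m
    (ch.Fd_le_M hrN le_rfl hm) hm0 ?_ π)
  rw [Chain.sub_M, show 0 + (ch.sub 0 (s + 1) hle').N = s + 1 from zero_add _,
    ch.M_sup (by omega) hrN]
  exact hs

omit [IsAlgClosed Ω] in
theorem rb_step (T : Tools τ Ω) (ch : Chain τ Ω) (ih : ch.IH) (h1 : 1 ≤ ch.N)
    (h2 : (ch.Q 1).totalDegree = 2) :
    ch.RR ∧ ∃ r, r ≤ ch.N ∧ ¬ Fd k (ch.l 0) ≤ ch.M r ch.N := by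
  obtain ⟨q1, hq1, hΔ⟩ := T.conic _ (ch.mir 1 le_rfl h1).irr h2
  obtain ⟨r, hr1, hrN, hrun, hmax⟩ := exists_run
    (fun j => ∃ q : Conic k, q.poly = ch.Q j ∧ q.Δ ≠ 0 ∧ q1.dQ.Same q.dQ) h1 fun j a b => by
    obtain rfl : j = 1 := by omega
    exact ⟨q1, hq1, hΔ, QF.Same.rfl' _⟩
  have hle : r + (ch.N - r) ≤ ch.N := by omega
  let c := ch.sub r (ch.N - r) hle
  have hM : c.M 0 c.N = ch.M r ch.N := by
    rw [Chain.sub_M]; congr 1; change r + (ch.N - r) = _; omega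
  have hc : ∀ n : R2 k, n ≠ 0 → Sq (ch.M r ch.N) (ev (ch.l r) n) → c.Triv n := fun n hn hs =>
    (ih c (by change ch.N - r < _; omega)).rr n hn 1 (one_mem _) one_ne_zero (fun _ => rfl)
      (by rw [hM, mul_one]; exact hs)
  obtain ⟨q', a1, a2, a3, a4⟩ : ∃ q' : Conic k, q'.Δ ≠ 0 ∧ RealC τ q'.poly ∧ ¬ q1.dQ.Same q'.dQ ∧
      ∀ n π, c.Triv n → OddP n π → q'.dQ.Vert π := by
    by_cases h : r < ch.N ∧ ∃ q : Conic k, q.poly = ch.Q (r + 1) ∧ q.Δ ≠ 0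
    · obtain ⟨h, q, e, hq⟩ := h
      refine ⟨q, hq, e ▸ (ch.mir (r + 1) (by omega) h).real, fun hs => hmax h ⟨q, e, hq, hs⟩,
        fun n π ht hπ => ?_⟩
      obtain ⟨-, q2, e2, -, hv⟩ := ht π hπ
      rwa [Conic.poly_inj (e.trans e2.symm)]
    · obtain ⟨q', a1, a2, a3⟩ := exists_other τ q1.dQ
      refine ⟨q', a1, a2, a3, fun n π ht hπ => ?_⟩
      obtain ⟨h0, q2, e2, h3, -⟩ := ht π hπ
      exact absurd ⟨by change 1 ≤ ch.N - r at h0; omega, q2, e2, h3⟩ h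
  have hle' : 0 + r ≤ ch.N := by omega
  have hl : (ch.sub 0 r hle').l (ch.sub 0 r hle').N = ch.l r := congrArg ch.l (zero_add _)
  obtain ⟨b1, b2⟩ := T.con (ch.sub 0 r hle') q1.dQ q' (ch.M r ch.N) hr1
    (fun j a b => hrun (0 + j) (by omega) (by change j ≤ r at b; omega)) a1 a2 a3
    (by rw [hl]; exact ch.Fd_le_M le_rfl hrN)
    (fun n hn hs π => a4 n π (hc n hn (by rwa [hl] at hs)))
  refine ⟨fun n hn m hm hm0 _ hs π hπ => ⟨h1, q1, hq1, hΔ,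
    b2 n hn m (ch.Fd_le_M hrN le_rfl hm) hm0 ?_ π hπ⟩, r, hrN, b1⟩
  rw [Chain.sub_M, show 0 + (ch.sub 0 r hle').N = r from zero_add _, ch.M_sup (by omega) hrN]
  exact hs

omit [IsAlgClosed Ω] [CharZero k] in
theorem r0_step (ch : Chain τ Ω) (h : ch.N = 0) : ch.RR := by
  intro n hn m _ _ hm hs π hπ
  rw [hm h, mul_one, h, Chain.M_self] at hs
  exact absurd hπ (sq0 ch.gen0 hn hs π)

theorem fin_step (T : Tools τ Ω) (ch : Chain τ Ω) (ih : ch.IH) (hp : ch.PN) (h1 : 1 ≤ ch.N) :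
    ∃ r, r ≤ ch.N ∧ ¬ Fd k (ch.l 0) ≤ ch.M r ch.N := by
  classical
  have hm := ch.mir 1 le_rfl h1
  by_cases h2 : (ch.Q 1).totalDegree = 2
  · exact (rb_step T ch ih h1 h2).2
  have h3 : 3 ≤ (ch.Q 1).totalDegree := by have := hm.deg; omega
  refine ⟨1, h1, fun hle => ?_⟩
  have hx : ∀ σ ∈ G (ch.M 1 ch.N), σ ch.x1 = ch.x1 := fun σ hσ =>
    (ch.lk 0 h1).symm.fix_pos T.td (ch.Q_ne 1 le_rfl h1) (G_anti (ch.Fd_le_M le_rfl h1) hσ)
      (G_anti hle hσ)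
  by_cases hN : ch.TypeN
  · obtain ⟨y, hy, hne⟩ := Finset.exists_mem_ne (s := ch.Rem) (by have := T.three_le ch hN; omega)
      ch.x1
    obtain ⟨σ, hσ, e⟩ := (hp hN).move (T.x1_Rem ch h1) hy
    exact hne (by rw [← e, hx σ hσ])
  · have h4 : (ch.Q 1).totalDegree = 3 ∧ ch.Two := by_contra fun h => hN ⟨h1, h3, h⟩
    obtain ⟨σ, hσ, hs⟩ := exists_odd T ch ih h1 h3
    have hB := T.G_le_B0 ch h1 (fun h => h.1) hσ
    have hc := T.card hm (ch.gen 1 h1)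
    have hsub : ((Rts (ch.Q 1) (ch.l 1)).erase ch.x1).erase ch.x2 ⊆ Rts (ch.Q 1) (ch.l 1) :=
      (Finset.erase_subset _ _).trans (Finset.erase_subset _ _)
    rw [← sg_filter (Rts_stab (ch.mem_G_B0.1 hB).1) hsub fun x hx' hn => by
      by_cases e1 : x = ch.x1
      · rw [e1, hx σ hσ]
      · have e2 : x = ch.x2 := by_contra fun e2 =>
          hn (Finset.mem_erase.2 ⟨e2, Finset.mem_erase.2 ⟨e1, hx'⟩⟩)
        rw [e2, (ch.mem_G_B0.1 hB).2 h4.2]] at hs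
    have hcard : (((Rts (ch.Q 1) (ch.l 1)).erase ch.x1).erase ch.x2).card = 1 := by
      rw [Finset.card_erase_of_mem (Finset.mem_erase.2
        ⟨(ch.x1_ne_x2 h4.2.1).symm, T.x2_Rts ch h4.2⟩),
        Finset.card_erase_of_mem (T.x1_Rts ch h1), hc, h4.1]
    have : Subsingleton ↥(((Rts (ch.Q 1) (ch.l 1)).erase ch.x1).erase ch.x2) :=
      Fintype.card_le_one_iff_subsingleton.1 (by simp [hcard])
    rw [sg, Subsingleton.elim (pm σ _) 1, map_one] at hs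
    exact absurd hs (by decide)

end Ivrii
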